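import Pool.Agent.Z700.Defs

/-!
# Z700, job BIL2B: evaluation of `cp + cp7`
-/

set_option autoImplicit false

namespace Pool.Agent.Z700.BIL2B

open Finset Matrix Pool.Agent.Z700

theorem dot3 (v w : V3) : v ⬝ᵥ w = v 0 * w 0 + v 1 * w 1 + v 2 * w 2 := by
  simp [dotProduct, Fin.sum_univ_three]

theorem mem_vec (n : ℤ) (v : V3) : v ∈ vec n ↔ v ⬝ᵥ v = n := by
  unfold vec
  rw [Finset.mem_filter]
  constructor
  · exact fun h => h.2
  · intro h
    refine ⟨?_, h⟩
    rw [Fintype.mem_piFinset]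
    intro i
    rw [Finset.mem_Icc]
    rw [dot3] at h
    have h0 := mul_self_nonneg (v 0)
    have h1 := mul_self_nonneg (v 1)
    have h2 := mul_self_nonneg (v 2)
    have key : v i * v i ≤ n := by
      fin_cases i
      · show v 0 * v 0 ≤ n
        linarith
      · show v 1 * v 1 ≤ n
        linarith
      · show v 2 * v 2 ≤ n
        linarith
    have k2 : v i ≤ v i * v i := by
      rcases le_or_gt (v i) 0 with h | h
      · nlinarith [mul_self_nonneg (v i)]
      · nlinarith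
    have k3 : -v i ≤ v i * v i := by
      rcases le_or_gt 0 (v i) with h | h
      · nlinarith [mul_self_nonneg (v i)]
      · nlinarith
    constructor <;> linarith

theorem pr_insert (D : Finset ℕ) (p : ℕ) (hp : p ∉ D) : pr (insert p D) = p * pr D := by
  unfold pr
  rw [Finset.prod_insert hp]

theorem pr_mod (D : Finset ℕ) (h : ∀ p ∈ D, Fam p) : pr D % 24 = 1 := by
  induction D using Finset.induction_on with
  | empty => rfl
  | insert p s hp ih =>
    rw [pr_insert s p hp, Nat.mul_mod, ih (fun q hq => h q (Finset.mem_insert_of_mem hq)),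
      (h p (Finset.mem_insert_self p s)).2.1]

theorem pr_sq (D : Finset ℕ) (h : ∀ p ∈ D, Fam p) : Squarefree (pr D) := by
  induction D using Finset.induction_on with
  | empty => exact squarefree_one
  | insert p s hp ih =>
    have hpp : p.Prime := (h p (Finset.mem_insert_self p s)).1
    rw [pr_insert s p hp, Nat.squarefree_mul]
    · exact ⟨hpp.squarefree, ih (fun q hq => h q (Finset.mem_insert_of_mem hq))⟩
    · unfold pr
      refine Nat.Coprime.prod_right fun q hq => ?_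
      rw [Nat.coprime_primes hpp (h q (Finset.mem_insert_of_mem hq)).1]
      rintro rfl
      exact hp hq

theorem sq7_sq (p : ℕ) (h : Fam p) : sq7 p ^ 2 = (p : ZMod 7) := by
  have h1 : (p : ZMod 7) = ((p % 7 : ℕ) : ZMod 7) := (ZMod.natCast_mod p 7).symm
  rw [h1]
  obtain ⟨-, -, h2⟩ := h
  unfold sq7
  rcases h2 with h2 | h2 | h2 <;> rw [h2] <;> decide

theorem fact7 : Fact (Nat.Prime 7) := ⟨by norm_num⟩

theorem cast_ne7 (p : ℕ) (h : Fam p) : (p : ZMod 7) ≠ 0 := by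
  have h1 : (p : ZMod 7) = ((p % 7 : ℕ) : ZMod 7) := (ZMod.natCast_mod p 7).symm
  rw [h1]
  obtain ⟨-, -, h2⟩ := h
  rcases h2 with h2 | h2 | h2 <;> rw [h2] <;> decide

theorem pr_ne7 (D : Finset ℕ) (h : ∀ p ∈ D, Fam p) : (pr D : ZMod 7) ≠ 0 := by
  have := fact7
  unfold pr
  rw [Nat.cast_prod, Finset.prod_ne_zero_iff]
  intro p hp
  exact cast_ne7 p (h p hp)

theorem be_sq (D : Finset ℕ) (h : ∀ p ∈ D, Fam p) : be D ^ 2 = -((3 * pr D : ℕ) : ZMod 7) := by
  unfold be pr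
  rw [mul_pow, ← Finset.prod_pow, Finset.prod_congr rfl fun p hp => sq7_sq p (h p hp)]
  push_cast
  have h4 : (2 : ZMod 7) ^ 2 = -3 := by decide
  rw [h4]
  ring

theorem three_ne : (3 : ZMod 7) ≠ 0 := by decide

theorem two_ne : (2 : ZMod 7) ≠ 0 := by decide

theorem eight_eq : (8 : ZMod 7) = 1 := by decide

theorem dvd7 (x : ℤ) : (7 : ℤ) ∣ x ↔ (x : ZMod 7) = 0 :=
  (ZMod.intCast_zmod_eq_zero_iff_dvd x 7).symm

theorem n_ne7 (D : Finset ℕ) (h : ∀ p ∈ D, Fam p) : ((3 * pr D : ℕ) : ZMod 7) ≠ 0 := by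
  have := fact7
  push_cast
  exact mul_ne_zero three_ne (pr_ne7 D h)

theorem be_ne (D : Finset ℕ) (h : ∀ p ∈ D, Fam p) : be D ≠ 0 := by
  have := fact7
  intro h0
  have h1 := be_sq D h
  rw [h0] at h1
  have h2 : ((3 * pr D : ℕ) : ZMod 7) = 0 := by
    have h3 : (0 : ZMod 7) ^ 2 = 0 := zero_pow two_ne_zero
    rw [h3] at h1
    have h5 := congrArg Neg.neg h1
    rw [neg_neg, neg_zero] at h5
    exact h5.symm
  exact n_ne7 D h h2

theorem sq3pr (D : Finset ℕ) (h : ∀ p ∈ D, Fam p) : Squarefree (3 * pr D) := by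
  have h1 := pr_mod D h
  rw [Nat.squarefree_mul]
  · exact ⟨Nat.prime_three.squarefree, pr_sq D h⟩
  · rw [Nat.Prime.coprime_iff_not_dvd Nat.prime_three]
    omega

/-! ### the nonpositive case -/

theorem pr_union (D1 D2 : Finset ℕ) (h : Disjoint D1 D2) : pr D1 * pr D2 = pr (D1 ∪ D2) := by
  unfold pr
  rw [Finset.prod_union h]

theorem one_lt_pr (D : Finset ℕ) (h : ∀ p ∈ D, Fam p) (hne : D.Nonempty) : 1 < pr D := by
  obtain ⟨p, hp⟩ := hne
  have h1 : p ∣ pr D := Finset.dvd_prod_of_mem _ hp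
  have h2 : 1 < p := (h p hp).1.one_lt
  have h3 : 0 < pr D := by
    have := pr_mod D h
    omega
  exact lt_of_lt_of_le h2 (Nat.le_of_dvd h3 h1)

theorem no_sq (D1 D2 : Finset ℕ) (h1 : ∀ p ∈ D1, Fam p) (h2 : ∀ p ∈ D2, Fam p)
    (hd : Disjoint D1 D2 ∨ D1 = D2) (hne : D1.Nonempty ∨ D2.Nonempty) (b : ℤ) (hb : b % 4 = 1)
    (hb7 : (b : ZMod 7) = -(be D1 * be D2)) : b ^ 2 ≠ 9 * (pr D1 : ℤ) * (pr D2 : ℤ) := by
  have := fact7
  intro hbb
  rcases hd with hd | hd
  · -- disjoint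
    have h12 : ∀ p ∈ D1 ∪ D2, Fam p := by
      intro p hp
      rcases Finset.mem_union.1 hp with hp | hp
      · exact h1 p hp
      · exact h2 p hp
    have hsq := pr_sq (D1 ∪ D2) h12
    have hlt : 1 < pr (D1 ∪ D2) := one_lt_pr _ h12 (by
      rcases hne with hne | hne
      · exact hne.mono Finset.subset_union_left
      · exact hne.mono Finset.subset_union_right)
    have h3 : (b.natAbs) ^ 2 = 3 ^ 2 * pr (D1 ∪ D2) := by
      have : ((b.natAbs ^ 2 : ℕ) : ℤ) = ((3 ^ 2 * pr (D1 ∪ D2) : ℕ) : ℤ) := by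
        rw [← pr_union D1 D2 hd]
        push_cast
        rw [sq_abs, hbb]
        ring
      exact_mod_cast this
    have h4 : 3 ∣ b.natAbs := by
      have : 3 ∣ b.natAbs ^ 2 := by rw [h3]; exact Dvd.dvd.mul_right (by norm_num) _
      exact Nat.prime_three.dvd_of_dvd_pow this
    obtain ⟨c, hc⟩ := h4
    rw [hc, mul_pow] at h3
    have h5 : c ^ 2 = pr (D1 ∪ D2) := Nat.eq_of_mul_eq_mul_left (by norm_num) h3
    rw [← h5] at hsq hlt
    have h6 : IsUnit c := hsq c (by rw [sq])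
    rw [Nat.isUnit_iff] at h6
    rw [h6] at hlt
    norm_num at hlt
  · subst hd
    have h3 : b ^ 2 = (3 * (pr D1 : ℤ)) ^ 2 := by rw [hbb]; ring
    have h4 := pr_mod D1 h1
    rcases sq_eq_sq_iff_eq_or_eq_neg.1 h3 with h5 | h5
    · omega
    · have h6 : (b : ZMod 7) = be D1 ^ 2 := by
        rw [h5, be_sq D1 h1]
        push_cast
        ring
      rw [h6] at hb7
      have h7 : (2 : ZMod 7) * be D1 ^ 2 = 0 := by
        have : be D1 ^ 2 + be D1 * be D1 = 0 := by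
          rw [hb7]; ring
        linear_combination this
      rcases mul_eq_zero.1 h7 with h8 | h8
      · exact two_ne h8
      · exact be_ne D1 h1 (pow_eq_zero_iff two_ne_zero |>.1 h8)

theorem cauchy (v w : V3) : (v ⬝ᵥ w) ^ 2 ≤ (v ⬝ᵥ v) * (w ⬝ᵥ w) := by
  rw [dot3, dot3, dot3]
  nlinarith [sq_nonneg (v 0 * w 1 - v 1 * w 0), sq_nonneg (v 0 * w 2 - v 2 * w 0),
    sq_nonneg (v 1 * w 2 - v 2 * w 1)]

theorem cp_zero (n1 b n2 : ℤ) (h : n1 * n2 < b ^ 2) : cp n1 b n2 = 0 := by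
  unfold cp
  rw [Finset.card_eq_zero, Finset.filter_eq_empty_iff]
  rintro ⟨v, w⟩ hvw hb
  rw [Finset.mem_product, mem_vec, mem_vec] at hvw
  have := cauchy v w
  simp only at hvw hb
  rw [hvw.1, hvw.2, hb] at this
  linarith

theorem cp7_le (n1 b n2 : ℤ) (β1 β2 : ZMod 7) : cp7 n1 b n2 β1 β2 ≤ cp n1 b n2 := by
  unfold cp7 cp
  refine Finset.card_le_card fun q hq => ?_
  rw [Finset.mem_filter] at hq ⊢
  exact ⟨hq.1, hq.2.1⟩

/-! ### the count of the pairs proportional modulo 7 -/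

/-- the translation -/
def T7 (k : ℤ) (w v : V3) : V3 := fun i => 7 * w i + k * v i

/-- the inverse translation -/
def U7 (k : ℤ) (w v : V3) : V3 := fun i => (w i - k * v i) / 7

theorem prop7 (k : ℤ) (β1 β2 : ZMod 7) (hβ1 : β1 ≠ 0) (hk : (k : ZMod 7) * β1 = β2) (v w : V3) :
    (∀ i, β2 * (v i : ZMod 7) = β1 * (w i : ZMod 7)) ↔ ∀ i, (7 : ℤ) ∣ w i - k * v i := by
  have := fact7
  refine forall_congr' fun i => ?_
  have h1 : (7 : ℤ) ∣ w i - k * v i ↔ ((w i - k * v i : ℤ) : ZMod 7) = 0 :=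
    (ZMod.intCast_zmod_eq_zero_iff_dvd _ 7).symm
  rw [h1]
  push_cast
  constructor
  · intro h
    have : β1 * ((w i : ZMod 7) - k * v i) = 0 := by
      rw [mul_sub, ← h, ← hk]
      ring
    rcases mul_eq_zero.1 this with h2 | h2
    · exact absurd h2 hβ1
    · exact h2
  · intro h
    rw [← hk]
    linear_combination (-β1) * h

theorem cp7_eq (n1 b n2 : ℤ) (β1 β2 : ZMod 7) (hβ1 : β1 ≠ 0) (k b' n2' : ℤ)
    (hk : (k : ZMod 7) * β1 = β2) (hb' : 7 * b' = b - k * n1)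
    (hn : 49 * n2' = n2 - 2 * k * b + k ^ 2 * n1) : cp7 n1 b n2 β1 β2 = cp n1 b' n2' := by
  unfold cp7 cp
  refine Finset.card_nbij' (fun q => (q.1, U7 k q.2 q.1)) (fun q => (q.1, T7 k q.2 q.1)) ?_ ?_ ?_ ?_
  · rintro ⟨v, w⟩ h
    simp only [Finset.coe_filter, Set.mem_ofPred_eq, Finset.mem_product, mem_vec] at h ⊢
    obtain ⟨⟨h1, h2⟩, h3, h4⟩ := h
    rw [prop7 k β1 β2 hβ1 hk] at h4
    choose u hu using h4
    have hU : U7 k w v = u := by
      funext i
      unfold U7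
      rw [hu i]
      exact Int.mul_ediv_cancel_left _ (by norm_num)
    rw [hU]
    have hw : ∀ i, w i = 7 * u i + k * v i := fun i => by linarith [hu i]
    rw [dot3] at h1 h2 h3 ⊢
    rw [dot3, dot3]
    simp only [hw] at h2 h3
    refine ⟨⟨h1, ?_⟩, ?_⟩
    · have : 49 * (u 0 * u 0 + u 1 * u 1 + u 2 * u 2) = 49 * n2' := by
        rw [hn, ← h1, ← h2, ← h3]
        ring
      linarith
    · have : 7 * (v 0 * u 0 + v 1 * u 1 + v 2 * u 2) = 7 * b' := by
        rw [hb', ← h1, ← h3]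
        ring
      linarith
  · rintro ⟨v, w⟩ h
    simp only [Finset.coe_filter, Set.mem_ofPred_eq, Finset.mem_product, mem_vec] at h ⊢
    obtain ⟨⟨h1, h2⟩, h3⟩ := h
    rw [prop7 k β1 β2 hβ1 hk]
    have hT : ∀ i, T7 k w v i = 7 * w i + k * v i := fun i => rfl
    rw [dot3] at h1 h2 h3 ⊢
    rw [dot3, dot3]
    simp only [hT]
    refine ⟨⟨h1, ?_⟩, ?_, ?_⟩
    · have : n2 = 49 * n2' + 2 * k * b - k ^ 2 * n1 := by linarith
      rw [this]
      have hb2 : b = 7 * b' + k * n1 := by linarith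
      rw [hb2, ← h1, ← h2, ← h3]
      ring
    · have hb2 : b = 7 * b' + k * n1 := by linarith
      rw [hb2, ← h1, ← h3]
      ring
    · intro i
      exact ⟨w i, by ring⟩
  · rintro ⟨v, w⟩ h
    simp only [Finset.coe_filter, Set.mem_ofPred_eq, Finset.mem_product, mem_vec] at h ⊢
    obtain ⟨⟨h1, h2⟩, h3, h4⟩ := h
    rw [prop7 k β1 β2 hβ1 hk] at h4
    have hTU : T7 k (U7 k w v) v = w := by
      funext i
      show 7 * ((w i - k * v i) / 7) + k * v i = w i
      rw [Int.mul_ediv_cancel' (h4 i)]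
      ring
    show (v, T7 k (U7 k w v) v) = (v, w)
    rw [hTU]
  · rintro ⟨v, w⟩ h
    have hUT : U7 k (T7 k w v) v = w := by
      funext i
      show (7 * w i + k * v i - k * v i) / 7 = w i
      have : 7 * w i + k * v i - k * v i = 7 * w i := by ring
      rw [this]
      exact Int.mul_ediv_cancel_left _ (by norm_num)
    show (v, U7 k (T7 k w v) v) = (v, w)
    rw [hUT]

theorem cp7_zero (n1 b n2 : ℤ) (β1 β2 : ZMod 7) (hβ1 : β1 ≠ 0) (k : ℤ)
    (hk : (k : ZMod 7) * β1 = β2) (h49 : ¬ (49 : ℤ) ∣ n1 * n2 - b ^ 2) :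
    cp7 n1 b n2 β1 β2 = 0 := by
  unfold cp7
  rw [Finset.card_eq_zero, Finset.filter_eq_empty_iff]
  rintro ⟨v, w⟩ h h3
  simp only [Finset.mem_product, mem_vec] at h h3
  obtain ⟨h1, h2⟩ := h
  obtain ⟨h3, h4⟩ := h3
  rw [prop7 k β1 β2 hβ1 hk] at h4
  choose u hu using h4
  have hw : ∀ i, w i = 7 * u i + k * v i := fun i => by linarith [hu i]
  apply h49
  rw [← h1, ← h2, ← h3]
  rw [dot3, dot3, dot3]
  simp only [hw]
  refine ⟨(v 0 * v 0 + v 1 * v 1 + v 2 * v 2) * (u 0 * u 0 + u 1 * u 1 + u 2 * u 2) -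
    (v 0 * u 0 + v 1 * u 1 + v 2 * u 2) ^ 2, ?_⟩
  ring

/-! ### the local factors -/

theorem jac_n1 (n1 : ℕ) (β1 : ZMod 7) (h : β1 ^ 2 = -(n1 : ZMod 7)) (hβ : β1 ≠ 0) :
    jacobiSym (-(n1 : ℤ)) 7 = 1 := by
  have := fact7
  rw [← jacobiSym.legendreSym.to_jacobiSym, legendreSym.eq_one_iff]
  · push_cast
    exact ⟨β1, by rw [← h]; ring⟩
  · push_cast
    rw [← h]
    exact pow_ne_zero 2 hβ

theorem fac7 (n1 D : ℕ) (h7 : ¬ 7 ∣ n1) (hj : jacobiSym (-(n1 : ℤ)) 7 = 1) :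
    fac n1 D 7 = (D.factorization 7 : ℤ) + 1 := by
  unfold fac
  rw [if_neg h7, hj]
  simp

theorem fact49 (D' l : ℕ) (hD' : 0 < D') (hl : l.Prime) (h7 : l ≠ 7) :
    (49 * D').factorization l = D'.factorization l := by
  rw [Nat.factorization_mul (by norm_num) hD'.ne']
  have h49 : (49 : ℕ).factorization l = 0 := by
    apply Nat.factorization_eq_zero_of_not_dvd
    intro h
    have h1 : l ∣ 7 ^ 2 := by norm_num; exact h
    have h2 := hl.dvd_of_dvd_pow h1
    rw [Nat.prime_dvd_prime_iff_eq hl (by norm_num)] at h2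
    exact h7 h2
  simp [h49]

theorem fact49_7 (D' : ℕ) (hD' : 0 < D') :
    (49 * D').factorization 7 = 2 + D'.factorization 7 := by
  rw [Nat.factorization_mul (by norm_num) hD'.ne']
  have h49 : (49 : ℕ).factorization 7 = 2 := by
    have : (49 : ℕ) = 7 ^ 2 := by norm_num
    rw [this, Nat.Prime.factorization_pow (by norm_num)]
    simp
  simp [h49]

theorem jac49 (x : ℤ) (l : ℕ) (hl : l.Prime) (h7 : l ≠ 7) :
    jacobiSym (49 * x) l = jacobiSym x l := by
  rw [jacobiSym.mul_left]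
  have h1 : jacobiSym (49 : ℤ) l = 1 := by
    have : (49 : ℤ) = 7 ^ 2 := by norm_num
    rw [this]
    apply jacobiSym.sq_one'
    rw [Int.gcd_comm]
    have h2 : Nat.Coprime l 7 := (Nat.coprime_primes hl (by norm_num)).2 h7
    exact_mod_cast h2
  rw [h1, one_mul]

theorem fac49 (n1 D' l : ℕ) (hD' : 0 < D') (hl : l.Prime) (h7 : l ≠ 7) :
    fac n1 (49 * D') l = fac n1 D' l := by
  unfold fac hh
  rw [fact49 D' l hD' hl h7]
  have h1 : 49 * D' / l ^ D'.factorization l = 49 * (D' / l ^ D'.factorization l) :=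
    Nat.mul_div_assoc _ (Nat.ordProj_dvd D' l)
  rw [h1]
  have h2 : (-((49 * (D' / l ^ D'.factorization l) : ℕ) : ℤ)) =
      49 * (-((D' / l ^ D'.factorization l : ℕ) : ℤ)) := by
    push_cast
    ring
  have h3 : (-((n1 / l * (49 * (D' / l ^ D'.factorization l)) : ℕ) : ℤ)) =
      49 * (-((n1 / l * (D' / l ^ D'.factorization l) : ℕ) : ℤ)) := by
    push_cast
    ring
  rw [h2, h3, jac49 _ l hl h7, jac49 _ l hl h7]

theorem pf49 (D' : ℕ) (hD' : 0 < D') :
    ((49 * D').primeFactors.erase 2).erase 7 = (D'.primeFactors.erase 2).erase 7 := by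
  rw [Nat.primeFactors_mul (by norm_num) hD'.ne']
  have h49 : (49 : ℕ).primeFactors = {7} := by
    have : (49 : ℕ) = 7 ^ 2 := by norm_num
    rw [this]
    exact Nat.primeFactors_prime_pow (by norm_num) (by norm_num)
  rw [h49]
  ext x
  simp only [Finset.mem_erase, Finset.mem_union, Finset.mem_singleton]
  tauto

theorem prod_split (n1 D : ℕ) (hD : 0 < D) (h7 : ¬ 7 ∣ n1) (hj : jacobiSym (-(n1 : ℤ)) 7 = 1) :
    ∏ l ∈ D.primeFactors.erase 2, fac n1 D l =
      ((D.factorization 7 : ℤ) + 1) * ∏ l ∈ (D.primeFactors.erase 2).erase 7, fac n1 D l := by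
  by_cases h : 7 ∈ D.primeFactors.erase 2
  · rw [← Finset.mul_prod_erase _ _ h, fac7 n1 D h7 hj]
  · rw [Finset.erase_eq_of_notMem h]
    have h2 : D.factorization 7 = 0 := by
      apply Nat.factorization_eq_zero_of_not_dvd
      intro h3
      apply h
      rw [Finset.mem_erase, Nat.mem_primeFactors]
      exact ⟨by norm_num, by norm_num, h3, hD.ne'⟩
    rw [h2]
    simp

/-! ### the main computation -/

theorem main_pos (h : S_PC) (n1 n2 D : ℕ) (b : ℤ) (β1 β2 : ZMod 7) (hs : Squarefree n1)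
    (h1 : n1 % 8 = 3) (h2 : n2 % 8 = 3) (hb : Odd b) (hD : 0 < D)
    (hDD : (D : ℤ) = n1 * n2 - b ^ 2) (hβ1 : β1 ^ 2 = -(n1 : ZMod 7))
    (hβ2 : β2 ^ 2 = -(n2 : ZMod 7)) (hβ10 : β1 ≠ 0) (hb7 : (b : ZMod 7) = -(β1 * β2)) :
    ((cp n1 b n2 + cp7 n1 b n2 β1 β2 : ℕ) : ℤ) = 48 * loc n1 D := by
  have := fact7
  have hj := jac_n1 n1 β1 hβ1 hβ10
  have hn7 : ¬ 7 ∣ n1 := by
    intro h7
    rw [← ZMod.natCast_eq_zero_iff] at h7
    rw [h7, neg_zero] at hβ1
    exact hβ10 (pow_eq_zero_iff two_ne_zero |>.1 hβ1)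
  have h7D : 7 ∣ D := by
    rw [← ZMod.natCast_eq_zero_iff]
    have h3 : ((D : ℤ) : ZMod 7) = 0 := by
      rw [hDD]
      push_cast
      have e1 : (n1 : ZMod 7) = -β1 ^ 2 := by rw [hβ1]; ring
      have e2 : (n2 : ZMod 7) = -β2 ^ 2 := by rw [hβ2]; ring
      rw [e1, e2, hb7]
      ring
    exact_mod_cast h3
  -- the multiplier
  set k : ℤ := 8 * ((β2 * β1⁻¹).val : ℤ) with hkdef
  have hk : (k : ZMod 7) * β1 = β2 := by
    rw [hkdef]
    push_cast
    rw [ZMod.natCast_val, ZMod.cast_id', id]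
    rw [eight_eq, one_mul, mul_assoc, inv_mul_cancel₀ hβ10, mul_one]
  have hc1 := h n1 n2 b D hs h1 h2 hb hD hDD
  rw [prod_split n1 D hD hn7 hj] at hc1
  by_cases h49 : 49 ∣ D
  · obtain ⟨D', hD'⟩ := h49
    have hD'0 : 0 < D' := by
      rcases Nat.eq_zero_or_pos D' with h0 | h0
      · rw [h0] at hD'
        omega
      · exact h0
    have hd7 : (7 : ℤ) ∣ b - k * n1 := by
      rw [dvd7]
      push_cast
      rw [hb7]
      have e1 : (n1 : ZMod 7) = -β1 ^ 2 := by rw [hβ1]; ring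
      rw [e1, ← hk]
      ring
    obtain ⟨b', hb'⟩ := hd7
    have hd49 : (49 : ℤ) ∣ n2 - 2 * k * b + k ^ 2 * n1 := by
      have h3 : (49 : ℤ) ∣ n1 * (n2 - 2 * k * b + k ^ 2 * n1) := by
        have : (n1 : ℤ) * (n2 - 2 * k * b + k ^ 2 * n1) = D + (b - k * n1) ^ 2 := by
          rw [hDD]
          ring
        rw [this, hb', hD']
        exact ⟨D' + b' ^ 2, by push_cast; ring⟩
      have h4 : IsCoprime (49 : ℤ) (n1 : ℤ) := by
        have h5 : Nat.Coprime 7 n1 := (Nat.Prime.coprime_iff_not_dvd (by norm_num)).2 hn7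
        have h6 : Nat.Coprime (7 ^ 2) n1 := Nat.Coprime.pow_left 2 h5
        have h7 := Nat.isCoprime_iff_coprime.2 h6
        exact_mod_cast h7
      exact h4.dvd_of_dvd_mul_left h3
    obtain ⟨n2', hn2'⟩ := hd49
    have hDD' : (D' : ℤ) = n1 * n2' - b' ^ 2 := by
      have h3 : (49 : ℤ) * D' = 49 * (n1 * n2' - b' ^ 2) := by
        have e1 : (49 : ℤ) * D' = n1 * n2 - b ^ 2 := by
          rw [← hDD, hD']
          push_cast
          ring
        rw [e1]
        have e2 : (49 : ℤ) * (n1 * n2' - b' ^ 2) = n1 * (49 * n2') - (7 * b') ^ 2 := by ring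
        rw [e2, ← hn2', ← hb']
        ring
      linarith
    have hn1pos : (0 : ℤ) < n1 := by
      have : 0 < n1 := by omega
      exact_mod_cast this
    have hD'pos : (0 : ℤ) < D' := by exact_mod_cast hD'0
    have hn2pos : 0 < n2' := by
      have : 0 < (n1 : ℤ) * n2' := by nlinarith [sq_nonneg b']
      exact (mul_pos_iff_of_pos_left hn1pos).1 this
    obtain ⟨m2, hm2⟩ := Int.eq_ofNat_of_zero_le hn2pos.le
    have hbodd : Odd b' := by
      have e : 7 * b' = b - k * n1 := hb'.symm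
      rw [hkdef] at e
      obtain ⟨c, hc⟩ := hb
      rw [Int.odd_iff]
      have : 7 * b' = 2 * c + 1 - 2 * (4 * ((β2 * β1⁻¹).val : ℤ) * n1) := by
        rw [e, hc]
        ring
      omega
    have hm8 : m2 % 8 = 3 := by
      have e1 : (49 : ℤ) * m2 = n2 + 8 * (8 * ((β2 * β1⁻¹).val : ℤ) ^ 2 * n1 -
          2 * ((β2 * β1⁻¹).val : ℤ) * b) := by
        have : (49 : ℤ) * m2 = 49 * n2' := by rw [hm2]
        rw [this, ← hn2', hkdef]
        ring
      omega
    have hDD'' : (D' : ℤ) = n1 * m2 - b' ^ 2 := by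
      rw [hDD', hm2]
    have hcc := h n1 m2 b' D' hs h1 hm8 hbodd hD'0 hDD''
    rw [prod_split n1 D' hD'0 hn7 hj] at hcc
    have h7 : cp7 n1 b n2 β1 β2 = cp n1 b' m2 := by
      have := cp7_eq n1 b n2 β1 β2 hβ10 k b' n2' hk hb'.symm hn2'.symm
      rw [this, hm2]
    push_cast
    rw [hc1, h7, hcc]
    unfold loc
    have hf2 : D.factorization 2 = D'.factorization 2 := by
      rw [hD']
      exact fact49 D' 2 hD'0 Nat.prime_two (by norm_num)
    have hf7 : D.factorization 7 = 2 + D'.factorization 7 := by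
      rw [hD']
      exact fact49_7 D' hD'0
    have hprod : ∏ l ∈ (D'.primeFactors.erase 2).erase 7, fac n1 D' l =
        ∏ l ∈ (D.primeFactors.erase 2).erase 7, fac n1 D l := by
      rw [hD', pf49 D' hD'0]
      refine Finset.prod_congr rfl fun l hl => ?_
      rw [Finset.mem_erase, Finset.mem_erase] at hl
      exact (fac49 n1 D' l hD'0 (Nat.prime_of_mem_primeFactors hl.2.2) hl.1).symm
    rw [hprod, ← hf2]
    by_cases hodd : Odd (D.factorization 2)
    · rw [if_pos hodd, if_pos hodd, if_pos hodd, hf7]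
      push_cast
      ring
    · rw [if_neg hodd, if_neg hodd, if_neg hodd]
      ring
  · have h49' : ¬ (49 : ℤ) ∣ (n1 : ℤ) * n2 - b ^ 2 := by
      rw [← hDD]
      intro h3
      exact h49 (by exact_mod_cast h3)
    have h7 := cp7_zero n1 b n2 β1 β2 hβ10 k hk h49'
    rw [h7]
    push_cast
    rw [hc1]
    have hf7 : D.factorization 7 = 1 := by
      have h3 : 1 ≤ D.factorization 7 := by
        rw [← Nat.Prime.dvd_iff_one_le_factorization (by norm_num) hD.ne']
        exact h7D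
      have h4 : ¬ 2 ≤ D.factorization 7 := by
        rw [← Nat.Prime.pow_dvd_iff_le_factorization (by norm_num) hD.ne']
        norm_num
        exact h49
      omega
    unfold loc
    by_cases hodd : Odd (D.factorization 2)
    · rw [if_pos hodd, if_pos hodd, hf7]
      push_cast
      ring
    · rw [if_neg hodd, if_neg hodd]
      ring

end Pool.Agent.Z700.BIL2B

namespace Pool.Agent.Z700

open BIL2B in
/-- BIL2B -/
theorem t_BIL2B (h : S_PC) : S_BIL2B := by
  intro P hP D1 s1 D2 s2 hd hne b hb4 hb7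
  have hP1 : ∀ p ∈ D1, Fam p := fun p hp => hP p (s1 hp)
  have hP2 : ∀ p ∈ D2, Fam p := fun p hp => hP p (s2 hp)
  have m1 := pr_mod D1 hP1
  have m2 := pr_mod D2 hP2
  by_cases hD : 0 < dis D1 D2 b
  · rw [if_pos hD]
    have hDD : (dis D1 D2 b : ℤ) = ((3 * pr D1 : ℕ) : ℤ) * ((3 * pr D2 : ℕ) : ℤ) - b ^ 2 := by
      unfold dis at hD ⊢
      rw [Int.toNat_of_nonneg (by omega)]
      push_cast
      ring
    have hbo : Odd b := by
      rw [Int.odd_iff]
      omega
    have key := main_pos h (3 * pr D1) (3 * pr D2) (dis D1 D2 b) b (be D1) (be D2) (sq3pr D1 hP1)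
      (by omega) (by omega) hbo hD hDD (be_sq D1 hP1) (be_sq D2 hP2) (be_ne D1 hP1) hb7
    rw [← key]
    push_cast
    rfl
  · rw [if_neg hD]
    have hle : 9 * (pr D1 : ℤ) * (pr D2 : ℤ) ≤ b ^ 2 := by
      unfold dis at hD
      omega
    have hlt : 9 * (pr D1 : ℤ) * (pr D2 : ℤ) < b ^ 2 :=
      lt_of_le_of_ne hle (no_sq D1 D2 hP1 hP2 hd hne b hb4 hb7).symm
    have h0 : cp (3 * (pr D1 : ℤ)) b (3 * (pr D2 : ℤ)) = 0 := by
      apply cp_zero
      linarith
    have h7 : cp7 (3 * (pr D1 : ℤ)) b (3 * (pr D2 : ℤ)) (be D1) (be D2) = 0 := by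
      have := cp7_le (3 * (pr D1 : ℤ)) b (3 * (pr D2 : ℤ)) (be D1) (be D2)
      omega
    rw [h0, h7]
    rfl

end Pool.Agent.Z700

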