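import Mathlib

/-!
# Twists of `X_0(14)` by products of arbitrarily many split primes: definitions and statements

Notation of the project Z700.  `P` is a finite set of primes `p ≡ 1 mod 24` which are squares mod `7`
and `m` is their product.  The definite side counts vectors of `ℤ³` of norm `3 m`, the indefinite side
consists of binary quadratic forms of discriminant `9`.
-/

set_option autoImplicit false

namespace Pool.Agent.Z700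

open Finset Matrix

noncomputable section

/-- vectors of `ℤ³` -/
abbrev V3 := Fin 3 → ℤ

/-- the vectors of norm `n` -/
def vec (n : ℤ) : Finset V3 :=
  (Fintype.piFinset fun _ => Icc (-n) n).filter fun v => v ⬝ᵥ v = n

/-- the number of pairs of vectors with Gram matrix `(n1, b; b, n2)` -/
def cp (n1 b n2 : ℤ) : ℕ := ((vec n1 ×ˢ vec n2).filter fun q => q.1 ⬝ᵥ q.2 = b).card

/-- the symbol `(-n1, -D)` at a prime `l ∣ n1` (`n1` squarefree, `l` odd) -/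
def hh (n1 D l : ℕ) : ℤ :=
  if Even (D.factorization l) then jacobiSym (-((D / l ^ D.factorization l : ℕ) : ℤ)) l
  else jacobiSym (-((n1 / l * (D / l ^ D.factorization l) : ℕ) : ℤ)) l

/-- the local factor at `l` -/
def fac (n1 D l : ℕ) : ℤ :=
  if l ∣ n1 then 1 + hh n1 D l
  else ∑ j ∈ range (D.factorization l + 1), (jacobiSym (-(n1 : ℤ)) l) ^ j

/-- positive definite symmetric integral matrices of determinant one -/
def PosM (M : Matrix (Fin 3) (Fin 3) ℤ) : Prop :=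
  Mᵀ = M ∧ 0 < M 0 0 ∧ 0 < M 0 0 * M 1 1 - M 0 1 ^ 2 ∧ M.det = 1

/-- PC1: the integral orthonormal lattice is the only unimodular one in dimension three, and it has
24 rotations -/
def S_TORS : Prop := ∀ M : Matrix (Fin 3) (Fin 3) ℤ, PosM M →
  Nat.card {A : Matrix (Fin 3) (Fin 3) ℤ // Aᵀ * A = M ∧ A.det = 1} = 24

/-- the parameters of the representations of `(n1, b; b, n2)`, `D = n1 n2 - b²`:
tuples `(e, μ, β, ν)` -/
def XX (n1 : ℕ) (b : ℤ) (D : ℕ) : Finset (ℕ × ℕ × ℕ × ℕ) :=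
  (range (D + 1) ×ˢ range n1 ×ˢ range D ×ˢ range n1).filter fun q =>
    0 < q.1 ∧ q.1 ^ 2 ∣ D ∧ q.2.2.1 < D / q.1 ^ 2 ∧
    (n1 : ℤ) ∣ q.1 * q.2.1 - b ∧ n1 ∣ q.2.1 ^ 2 + D / q.1 ^ 2 ∧
    (D / q.1 ^ 2) ∣ q.2.2.1 ^ 2 + n1 ∧ n1 ∣ q.2.2.1 + q.2.1 * q.2.2.2 ∧
    n1 ∣ (n1 + q.2.2.1 ^ 2) / (D / q.1 ^ 2) + q.2.2.2 ^ 2

/-- PC2: the pairs of vectors are parametrized by `XX` and the rotations -/
def S_CNT : Prop := ∀ (n1 n2 : ℕ) (b : ℤ) (D : ℕ), Squarefree n1 → 0 < D →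
  (D : ℤ) = n1 * n2 - b ^ 2 → cp n1 b n2 = 24 * (XX n1 b D).card

/-- PC3: evaluation of the number of parameters -/
def S_XC : Prop := ∀ (n1 n2 : ℕ) (b : ℤ) (D : ℕ), Squarefree n1 → n1 % 8 = 3 → n2 % 8 = 3 → Odd b →
  0 < D → (D : ℤ) = n1 * n2 - b ^ 2 → Odd (D.factorization 2) →
  ((XX n1 b D).card : ℤ) = ∏ l ∈ D.primeFactors.erase 2, fac n1 D l

/-- PC4: no pairs if the determinant has an even power of two -/
def S_EV : Prop := ∀ (n1 n2 : ℕ) (b : ℤ) (D : ℕ), Squarefree n1 → n1 % 8 = 3 → n2 % 8 = 3 → Odd b →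
  0 < D → (D : ℤ) = n1 * n2 - b ^ 2 → ¬ Odd (D.factorization 2) → cp n1 b n2 = 0

/-- the number of pairs of vectors with given Gram matrix -/
def S_PC : Prop := ∀ (n1 n2 : ℕ) (b : ℤ) (D : ℕ), Squarefree n1 → n1 % 8 = 3 → n2 % 8 = 3 → Odd b →
  0 < D → (D : ℤ) = n1 * n2 - b ^ 2 →
  (cp n1 b n2 : ℤ) = if Odd (D.factorization 2) then 24 * ∏ l ∈ D.primeFactors.erase 2, fac n1 D l
    else 0

theorem pc_of (h2 : S_CNT) (h3 : S_XC) (h4 : S_EV) : S_PC := by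
  intro n1 n2 b D hs a1 a2 hb hD hDD
  split_ifs with h
  · rw [← h3 n1 n2 b D hs a1 a2 hb hD hDD h, h2 n1 n2 b D hs hD hDD]
    push_cast
    ring
  · rw [h4 n1 n2 b D hs a1 a2 hb hD hDD h]
    rfl

/-! ### the family -/

/-- the primes of the family -/
def Fam (p : ℕ) : Prop := p.Prime ∧ p % 24 = 1 ∧ (p % 7 = 1 ∨ p % 7 = 2 ∨ p % 7 = 4)

/-- the product of the primes of a finite set -/
def pr (D : Finset ℕ) : ℕ := ∏ p ∈ D, p

/-- a square root of `p` modulo `7` -/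
def sq7 (p : ℕ) : ZMod 7 := if p % 7 = 1 then 1 else if p % 7 = 2 then 3 else 2

/-- a square root of `- 3 pr D` modulo `7` -/
def be (D : Finset ℕ) : ZMod 7 := 2 * ∏ p ∈ D, sq7 p

/-- the quadratic character modulo `3` -/
def chi3 (n : ℤ) : ℤ := if n % 3 = 1 then 1 else if n % 3 = 2 then -1 else 0

/-- the weight of a vector -/
def chv (v : V3) : ℤ := chi3 (v 0) * chi3 (v 1) * chi3 (v 2)

/-- `v × n = β n` modulo `7`: the isotropic line of `n` is the one attached to `v` and `β` -/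
def Ln (n : Fin 3 → ZMod 7) (β : ZMod 7) (v : V3) : Prop :=
  (v 1 : ZMod 7) * n 2 - (v 2 : ZMod 7) * n 1 = β * n 0 ∧
  (v 2 : ZMod 7) * n 0 - (v 0 : ZMod 7) * n 2 = β * n 1 ∧
  (v 0 : ZMod 7) * n 1 - (v 1 : ZMod 7) * n 0 = β * n 2

instance (n : Fin 3 → ZMod 7) (β : ZMod 7) (v : V3) : Decidable (Ln n β v) := by
  unfold Ln; infer_instance

/-- the base isotropic vector -/
def n0 : Fin 3 → ZMod 7 := ![1, 2, 3]

/-- the Gross sum -/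
def pii (D : Finset ℕ) : ℤ := ∑ v ∈ (vec (3 * (pr D : ℤ))).filter fun v => Ln n0 (be D) v, chv v

/-- the weight of a pair of vectors as a function of the inner product -/
def wt (b : ℤ) : ℤ := if b % 3 = 0 then chi3 (b / 3) else -chi3 b

/-- the local densities away from `2`, with the count at `7` -/
def loc (n1 D : ℕ) : ℤ :=
  if Odd (D.factorization 2) then
    (D.factorization 7 : ℤ) * ∏ l ∈ (D.primeFactors.erase 2).erase 7, fac n1 D l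
  else 0

/-- the discriminant attached to `b` -/
def dis (D1 D2 : Finset ℕ) (b : ℤ) : ℕ := (9 * (pr D1 : ℤ) * (pr D2 : ℤ) - b ^ 2).toNat

/-- the arithmetic side of the bilinear identity -/
def RR (D1 D2 : Finset ℕ) : ℤ :=
  ∑ b ∈ (Ioo (-(9 * (pr D1 : ℤ) * (pr D2 : ℤ))) (9 * (pr D1 : ℤ) * (pr D2 : ℤ))).filter fun b : ℤ =>
    b % 4 = 1 ∧ (b : ZMod 7) = -(be D1 * be D2) ∧ 0 < dis D1 D2 b,
    wt b * loc (3 * pr D1) (dis D1 D2 b)

/-- the bilinear identity -/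
def S_BIL : Prop := ∀ P : Finset ℕ, (∀ p ∈ P, Fam p) → ∀ D1 ⊆ P, ∀ D2 ⊆ P,
  (Disjoint D1 D2 ∨ D1 = D2) → (D1.Nonempty ∨ D2.Nonempty) → pii D1 * pii D2 = 6 * RR D1 D2

/-- the character modulo `12` -/
def chi12 (n : ℤ) : ℤ := if n % 12 = 1 ∨ n % 12 = 11 then 1 else if n % 12 = 5 ∨ n % 12 = 7 then -1
  else 0

/-- JAC: the cube of the theta series of `chi12` is supported on three times the squares -/
def S_JAC : Prop := ∀ n : ℕ, (¬ ∃ k : ℕ, n = 3 * k ^ 2) →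
  ∑ v ∈ vec n, chi12 (v 0) * chi12 (v 1) * chi12 (v 2) = 0

/-- the pairs with a common line and inner product `≡ 1 mod 4`, weighted -/
def DD (N1 N2 : ℤ) (β1 β2 : ZMod 7) (b : ℤ) : ℤ :=
  ∑ q ∈ (vec N1 ×ˢ vec N2).filter fun q => q.1 ⬝ᵥ q.2 = b ∧
    ∃ n : Fin 3 → ZMod 7, n ≠ 0 ∧ Ln n β1 q.1 ∧ Ln n β2 q.2, chv q.1 * chv q.2

/-- BIL1: the product of two Gross sums as a sum over pairs of vectors -/
def S_BIL1 : Prop := ∀ P : Finset ℕ, (∀ p ∈ P, Fam p) → ∀ D1 ⊆ P, ∀ D2 ⊆ P,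
  (Disjoint D1 D2 ∨ D1 = D2) → (D1.Nonempty ∨ D2.Nonempty) →
  4 * (pii D1 * pii D2) =
    ∑ b ∈ (Ioo (-(9 * (pr D1 : ℤ) * (pr D2 : ℤ))) (9 * (pr D1 : ℤ) * (pr D2 : ℤ))).filter
      fun b : ℤ => b % 4 = 1, DD (3 * (pr D1 : ℤ)) (3 * (pr D2 : ℤ)) (be D1) (be D2) b

/-- BIL2: the weighted count for a given inner product -/
def S_BIL2 : Prop := ∀ P : Finset ℕ, (∀ p ∈ P, Fam p) → ∀ D1 ⊆ P, ∀ D2 ⊆ P,
  (Disjoint D1 D2 ∨ D1 = D2) → (D1.Nonempty ∨ D2.Nonempty) → ∀ b : ℤ, b % 4 = 1 →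
  DD (3 * (pr D1 : ℤ)) (3 * (pr D2 : ℤ)) (be D1) (be D2) b =
    if (b : ZMod 7) = -(be D1 * be D2) ∧ 0 < dis D1 D2 b then
      24 * (wt b * loc (3 * pr D1) (dis D1 D2 b)) else 0

theorem bil_of (h1 : S_BIL1) (h2 : S_BIL2) : S_BIL := by
  intro P hP D1 s1 D2 s2 hd hn
  have k1 := h1 P hP D1 s1 D2 s2 hd hn
  have k2 : ∀ b ∈ (Ioo (-(9 * (pr D1 : ℤ) * (pr D2 : ℤ)))
      (9 * (pr D1 : ℤ) * (pr D2 : ℤ))).filter fun b : ℤ => b % 4 = 1,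
      DD (3 * (pr D1 : ℤ)) (3 * (pr D2 : ℤ)) (be D1) (be D2) b =
      if (b : ZMod 7) = -(be D1 * be D2) ∧ 0 < dis D1 D2 b then
      24 * (wt b * loc (3 * pr D1) (dis D1 D2 b)) else 0 := by
    intro b hb
    exact h2 P hP D1 s1 D2 s2 hd hn b (Finset.mem_filter.1 hb).2
  rw [Finset.sum_congr rfl k2, ← Finset.sum_filter, ← Finset.mul_sum, Finset.filter_filter] at k1
  have k3 : RR D1 D2 = ∑ b ∈ (Ioo (-(9 * (pr D1 : ℤ) * (pr D2 : ℤ)))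
      (9 * (pr D1 : ℤ) * (pr D2 : ℤ))).filter
      fun b : ℤ => b % 4 = 1 ∧ (b : ZMod 7) = -(be D1 * be D2) ∧ 0 < dis D1 D2 b,
      wt b * loc (3 * pr D1) (dis D1 D2 b) := rfl
  rw [← k3] at k1
  linarith

/-- the orientation at `2` of a vector with odd coordinates -/
def ep (v : V3) : ℤ := if (v 0 * v 1 * v 2) % 4 = 1 then 1 else -1

/-- the type of an isotropic line -/
def sgl (n : Fin 3 → ZMod 7) : ℤ := if n 1 ^ 2 = 4 * n 0 ^ 2 then 1 else -1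

/-- the sum over the vectors with a given line and orientation -/
def Sg (N : ℤ) (n : Fin 3 → ZMod 7) (β : ZMod 7) (ε : ℤ) : ℤ :=
  ∑ v ∈ (vec N).filter fun v => Ln n β v ∧ ep v = ε, chv v

/-- SG: dependence of the sums on the line and the orientation -/
def S_SG : Prop := ∀ P : Finset ℕ, (∀ p ∈ P, Fam p) → P.Nonempty → ∀ n : Fin 3 → ZMod 7, n ≠ 0 →
  n 0 ^ 2 + n 1 ^ 2 + n 2 ^ 2 = 0 → ∀ ε : ℤ, (ε = 1 ∨ ε = -1) →
  2 * Sg (3 * (pr P : ℤ)) n (be P) ε = sgl n * pii P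

/-- SG1: the same for the empty set -/
def S_SG1 : Prop := ∀ n : Fin 3 → ZMod 7, n ≠ 0 → n 0 ^ 2 + n 1 ^ 2 + n 2 ^ 2 = 0 →
  Sg 3 n 2 1 = (if sgl n = 1 then 1 else 0) ∧ Sg 3 n 2 (-1) = (if sgl n = 1 then 0 else -1)

/-- the pairs which are proportional modulo `7` -/
def cp7 (N1 b N2 : ℤ) (β1 β2 : ZMod 7) : ℕ := ((vec N1 ×ˢ vec N2).filter fun q =>
  q.1 ⬝ᵥ q.2 = b ∧ ∀ i, β2 * (q.1 i : ZMod 7) = β1 * (q.2 i : ZMod 7)).card

/-- BIL2A: weights and coincidences -/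
def S_BIL2A : Prop := ∀ P : Finset ℕ, (∀ p ∈ P, Fam p) → ∀ D1 ⊆ P, ∀ D2 ⊆ P, ∀ b : ℤ,
  2 * DD (3 * (pr D1 : ℤ)) (3 * (pr D2 : ℤ)) (be D1) (be D2) b =
    if (b : ZMod 7) = -(be D1 * be D2) then
      wt b * (cp (3 * (pr D1 : ℤ)) b (3 * (pr D2 : ℤ)) +
        cp7 (3 * (pr D1 : ℤ)) b (3 * (pr D2 : ℤ)) (be D1) (be D2)) else 0

/-- BIL2B: evaluation of the counts -/
def S_BIL2B : Prop := ∀ P : Finset ℕ, (∀ p ∈ P, Fam p) → ∀ D1 ⊆ P, ∀ D2 ⊆ P,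
  (Disjoint D1 D2 ∨ D1 = D2) → (D1.Nonempty ∨ D2.Nonempty) → ∀ b : ℤ, b % 4 = 1 →
  (b : ZMod 7) = -(be D1 * be D2) →
  ((cp (3 * (pr D1 : ℤ)) b (3 * (pr D2 : ℤ)) +
    cp7 (3 * (pr D1 : ℤ)) b (3 * (pr D2 : ℤ)) (be D1) (be D2) : ℕ) : ℤ) =
    if 0 < dis D1 D2 b then 48 * loc (3 * pr D1) (dis D1 D2 b) else 0

theorem bil2_of (h1 : S_BIL2A) (h2 : S_BIL2B) : S_BIL2 := by
  intro P hP D1 s1 D2 s2 hd hn b hb
  have k1 := h1 P hP D1 s1 D2 s2 b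
  by_cases hb7 : (b : ZMod 7) = -(be D1 * be D2)
  · have k2 := h2 P hP D1 s1 D2 s2 hd hn b hb hb7
    rw [if_pos hb7] at k1
    push_cast at k2
    rw [k2] at k1
    by_cases hD : 0 < dis D1 D2 b
    · rw [if_pos ⟨hb7, hD⟩]
      rw [if_pos hD] at k1
      linarith
    · rw [if_neg (fun h => hD h.2)]
      rw [if_neg hD] at k1
      linarith
  · rw [if_neg (fun h => hb7 h.1)]
    rw [if_neg hb7] at k1
    linarith

theorem bil_of' (h1 : S_BIL1) (h2 : S_BIL2A) (h3 : S_BIL2B) : S_BIL := bil_of h1 (bil2_of h2 h3)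

/-! ### the sum over the genus characters -/

/-- the part of `D` prime to `14` -/
def od (D : ℕ) : ℕ := D / (2 ^ D.factorization 2 * 7 ^ D.factorization 7)

/-- GENb: the sum over all factorizations for a fixed `b` -/
def S_GENb : Prop := ∀ P : Finset ℕ, (∀ p ∈ P, Fam p) → P.Nonempty → ∀ b : ℤ, Odd b → ¬ (9 : ℤ) ∣ b →
  ∀ D : ℕ, 0 < D → (D : ℤ) = 9 * (pr P : ℤ) - b ^ 2 → Odd (D.factorization 2) →
  ∃ n : ℤ, ∑ D1 ∈ P.powerset, ∏ l ∈ (D.primeFactors.erase 2).erase 7, fac (3 * pr D1) D l =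
      2 ^ P.card * n ∧
    (Odd n ↔ (¬ (3 : ℤ) ∣ b ∧ ∃ y : ℕ, od D = y ^ 2 ∧ ∀ p ∈ P, jacobiSym y p = 1))

open Classical in
/-- the representations of `9 m` by `b² + 14 y²` which remain -/
def FixS (P : Finset ℕ) : Finset ℤ :=
  (Ioo (-(9 * (pr P : ℤ))) (9 * (pr P : ℤ))).filter fun b : ℤ =>
    b % 4 = 1 ∧ (b : ZMod 7) = -(2 * be P) ∧ ¬ (3 : ℤ) ∣ b ∧
    ∃ y ∈ range (9 * pr P), 9 * (pr P : ℤ) = b ^ 2 + 14 * (y : ℤ) ^ 2 ∧ ∀ p ∈ P, jacobiSym y p = 1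

/-- GEN: the sum over all factorizations -/
def S_GEN : Prop := ∀ P : Finset ℕ, (∀ p ∈ P, Fam p) → P.Nonempty →
  ∃ N : ℤ, ∑ D1 ∈ P.powerset, RR D1 (P \ D1) = 2 ^ P.card * N ∧ (Odd N ↔ Odd (FixS P).card)

/-- the primes represented by `2 x² + 7 y²` -/
def X2 (p : ℕ) : Prop := ∃ f g : ℕ, p = 2 * f ^ 2 + 7 * g ^ 2

/-- the Laplacian of the residue graph has kernel `{∅, P}` modulo two -/
def KerT (P : Finset ℕ) : Prop := ∀ J ⊆ P, (∀ p ∈ P \ J, jacobiSym (pr J) p = 1) →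
  (∀ p ∈ J, jacobiSym (pr (P \ J)) p = 1) → J = ∅ ∨ J = P

open Classical in
/-- FIX: the parity of the number of remaining representations -/
def S_FIX : Prop := ∀ P : Finset ℕ, (∀ p ∈ P, Fam p) → P.Nonempty →
  (Odd (FixS P).card ↔ (Odd (P.filter fun p => X2 p).card ∧ KerT P))

/-- the normalized representations of `9 m` by `b² + 14 y²` -/
def Sol3 (P : Finset ℕ) : Set (ℤ × ℤ) := {q | 9 * (pr P : ℤ) = q.1 ^ 2 + 14 * q.2 ^ 2 ∧ q.1 % 4 = 1 ∧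
  ¬ (3 : ℤ) ∣ q.1 ∧ (3 : ℤ) ∣ q.2 - q.1}

open Classical in
/-- SOLA: existence of representations -/
def S_SOLA : Prop := ∀ P : Finset ℕ, (∀ p ∈ P, Fam p) →
  ((Sol3 P).Nonempty ↔ Odd (P.filter fun p => X2 p).card)

/-- SOLB: the flips -/
def S_SOLB : Prop := ∀ P : Finset ℕ, (∀ p ∈ P, Fam p) → ∀ p ∈ P, ∀ q ∈ Sol3 P,
  ∃ q' ∈ Sol3 P, (p : ℤ) ∣ q.1 * q'.2 + q'.1 * q.2 ∧
    (∀ r ∈ P, r ≠ p → (r : ℤ) ∣ q.1 * q'.2 - q'.1 * q.2) ∧
    (∀ r ∈ P, r ≠ p → jacobiSym q'.2 r = jacobiSym p r * jacobiSym q.2 r) ∧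
    (X2 p → jacobiSym q'.1 7 = - jacobiSym q.1 7) ∧ (¬ X2 p → jacobiSym q'.1 7 = jacobiSym q.1 7)

/-- SOLC: a representation is determined by the roots of `-14` it defines -/
def S_SOLC : Prop := ∀ P : Finset ℕ, (∀ p ∈ P, Fam p) → ∀ q ∈ Sol3 P, ∀ q' ∈ Sol3 P,
  (∀ p ∈ P, (p : ℤ) ∣ q.1 * q'.2 - q'.1 * q.2) → q = q'

/-- SOLP: the product formula -/
def S_SOLP : Prop := ∀ P : Finset ℕ, (∀ p ∈ P, Fam p) → ∀ q ∈ Sol3 P,
  (∀ p ∈ P, jacobiSym q.2 p = 1 ∨ jacobiSym q.2 p = -1) ∧ ∏ p ∈ P, jacobiSym q.2 p = 1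

/-! ### the tree identity -/

/-- the determinant of Laplacian plus diagonal -/
def Yd (l : ℕ → ℕ → ℤ) (x : ℕ → ℤ) (S : Finset ℕ) : ℤ :=
  (Matrix.of fun i j : S => if i = j then (∑ k ∈ S.erase i.1, l i k) + x i else -l i j).det

/-- TREE: the sum over all splittings containing a given point on one side -/
def S_TREE : Prop := ∀ (l : ℕ → ℕ → ℤ) (x : ℕ → ℤ), (∀ i j, l i j = l j i) → ∀ (P : Finset ℕ),
  ∀ p0 ∈ P, (Odd (∑ S ∈ P.powerset.filter fun S => p0 ∈ S, Yd l x S * Yd l x (P \ S)) ↔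
    (Odd (∑ p ∈ P, x p) ∧ ∀ J ⊆ P, (∀ p ∈ P \ J, Even (∑ q ∈ J, l p q)) →
      (∀ p ∈ J, Even (∑ q ∈ P \ J, l p q)) → J = ∅ ∨ J = P))

/-- the residue graph -/
def lres (p q : ℕ) : ℤ := if jacobiSym p q = -1 ∨ jacobiSym q p = -1 then 1 else 0

open Classical in
/-- the diagonal part -/
def xres (p : ℕ) : ℤ := if X2 p then 1 else 0

/-- IND: the parity of the Gross sum -/
def S_IND : Prop := ∀ P : Finset ℕ, (∀ p ∈ P, Fam p) → P.Nonempty →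
  ∃ y : ℤ, pii P = 3 * 2 ^ P.card * y ∧ (Odd y ↔ Odd (Yd lres xres P))

/-! ### the symbol -/

/-- the forms `A x² + B x y + C y²` of discriminant `9` entering the symbol -/
def Fm (q : ℤ × ℤ × ℤ) : Prop := q.2.1 ^ 2 - 4 * q.1 * q.2.2 = 9 ∧ (14 : ℤ) ∣ q.1 ∧
  (q.2.1 % 28 = 11 ∨ q.2.1 % 28 = 17)

/-- the genus character of a form of discriminant `9` -/
def cQ (q : ℤ × ℤ × ℤ) : ℤ := if q.1 % 3 = 0 then chi3 q.2.2 else chi3 q.1

open Classical in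
/-- the number of forms changing sign between `∞` and `x / M` -/
def Fp (x M : ℤ) : ℤ := - ∑ᶠ q : ℤ × ℤ × ℤ,
  if Fm q ∧ 0 < q.1 ∧ q.1 * x ^ 2 + q.2.1 * x * M + q.2.2 * M ^ 2 < 0 then cQ q else 0

/-- the local weight at `p` -/
def psp (p a a' Y X : ℕ) : ℤ := if p ∣ a ∧ p ∣ X then jacobiSym ((a' * Y : ℕ) : ℤ) p
  else jacobiSym ((a * X : ℕ) : ℤ) p

/-- the local weight at `3` -/
def ps3 (a a' Y X : ℕ) : ℤ := if 3 ∣ a ∧ 3 ∣ a' then -chi3 (X * Y : ℕ) else chi3 (a * a' : ℕ)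

/-- the divisor sum of the indefinite side -/
def WW (P : Finset ℕ) (S T : ℕ) : ℤ :=
  ∑ a ∈ S.divisors.filter (2 ∣ ·), ∑ a' ∈ T.divisors.filter (7 ∣ ·),
    ps3 a a' (S / a) (T / a') * ∏ p ∈ P, psp p a a' (S / a) (T / a')

/-- the units modulo `m` represented by naturals -/
def un (m : ℕ) : Finset ℕ := (range m).filter fun u => Nat.Coprime u m

/-- C1A: the forms and the cusps as factorizations -/
def S_C1A : Prop := ∀ P : Finset ℕ, (∀ p ∈ P, Fam p) → P.Nonempty →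
  ∑ u ∈ un (pr P), jacobiSym u (pr P) * Fp u (pr P) =
    -2 * ∑ T ∈ (range (3 * pr P)).filter (fun T => Odd T ∧ 7 ∣ T),
      ∑ a ∈ (3 * pr P - T).divisors.filter (2 ∣ ·), ∑ a' ∈ T.divisors.filter (7 ∣ ·),
        ps3 a a' ((3 * pr P - T) / a) (T / a') *
          ∑ u ∈ (un (pr P)).filter (fun u : ℕ => (pr P : ℤ) ∣ (a : ℤ) * (u : ℤ) + ((T / a' : ℕ) : ℤ) ∧
            (pr P : ℤ) ∣ (a' : ℤ) * (u : ℤ) - (((3 * pr P - T) / a : ℕ) : ℤ)), jacobiSym u (pr P)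

/-- C1B: the character sum over the cusps for a given matrix of determinant `3 m` -/
def S_C1B : Prop := ∀ P : Finset ℕ, (∀ p ∈ P, Fam p) → P.Nonempty → ∀ a a' X Y : ℕ,
  a * Y + a' * X = 3 * pr P →
  ∑ u ∈ (un (pr P)).filter (fun u : ℕ => (pr P : ℤ) ∣ (a : ℤ) * (u : ℤ) + (X : ℤ) ∧
    (pr P : ℤ) ∣ (a' : ℤ) * (u : ℤ) - (Y : ℤ)), jacobiSym u (pr P) = ∏ p ∈ P, psp p a a' Y X

/-- C1: the character sum of `Fp` as a sum of divisor sums -/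
def S_C1 : Prop := ∀ P : Finset ℕ, (∀ p ∈ P, Fam p) → P.Nonempty →
  ∑ u ∈ (range (pr P)).filter (fun u => Nat.Coprime u (pr P)), jacobiSym u (pr P) * Fp u (pr P) =
    -2 * ∑ T ∈ (range (3 * pr P)).filter (fun T => Odd T ∧ 7 ∣ T), WW P (3 * pr P - T) T

theorem c1_of (h1 : S_C1A) (h2 : S_C1B) : S_C1 := by
  intro P hP hne
  have k1 := h1 P hP hne
  have k0 : (range (pr P)).filter (fun u => Nat.Coprime u (pr P)) = un (pr P) := rfl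
  rw [k0, k1]
  congr 1
  refine Finset.sum_congr rfl fun T hT => ?_
  rw [WW]
  refine Finset.sum_congr rfl fun a ha => ?_
  refine Finset.sum_congr rfl fun a' ha' => ?_
  congr 1
  have hT1 : T < 3 * pr P := Finset.mem_range.1 (Finset.mem_filter.1 hT).1
  have h3 : a ∣ 3 * pr P - T := Nat.dvd_of_mem_divisors (Finset.mem_filter.1 ha).1
  have h4 : a' ∣ T := Nat.dvd_of_mem_divisors (Finset.mem_filter.1 ha').1
  refine h2 P hP hne a a' (T / a') ((3 * pr P - T) / a) ?_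
  rw [Nat.mul_div_cancel' h3, Nat.mul_div_cancel' h4]
  omega

/-- C2: evaluation of the divisor sums -/
def S_C2 : Prop := ∀ P : Finset ℕ, (∀ p ∈ P, Fam p) → P.Nonempty → ∀ T : ℕ, Odd T → 7 ∣ T →
  T < 3 * pr P → WW P (3 * pr P - T) T =
    wt (3 * (pr P : ℤ) - 2 * T) * loc (3 * pr P) (4 * (3 * pr P - T) * T)

/-- DIAG: the character sum of `Fp` is a square up to a factor -/
def S_DIAG : Prop := ∀ P : Finset ℕ, (∀ p ∈ P, Fam p) → P.Nonempty →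
  -3 * ∑ u ∈ (range (pr P)).filter (fun u => Nat.Coprime u (pr P)),
    jacobiSym u (pr P) * Fp u (pr P) = pii P ^ 2

end

end Pool.Agent.Z700
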