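import Pool.Agent.Z700.Defs

/-! # EV: no pairs of vectors when the power of two in the determinant is even -/

set_option autoImplicit false

namespace Pool.Agent.Z700

open Finset Matrix

/-- a sum of three squares of integers, not all even, with even sum is `2` modulo `4` -/
theorem ev_key (v0 v1 v2 : ℤ) (h0 : v0 % 2 = 1) (h1 : v1 % 2 = 1) (h2 : v2 % 2 = 1) (D : ℕ) :
    ∀ c0 c1 c2 : ℤ, 0 < D → (D : ℤ) = c0 ^ 2 + c1 ^ 2 + c2 ^ 2 →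
      v0 * c0 + v1 * c1 + v2 * c2 = 0 → Odd (D.factorization 2) := by
  induction D using Nat.strong_induction_on with
  | _ D ih =>
    intro c0 c1 c2 hD hDD hv
    obtain ⟨a0, ha0⟩ : ∃ a, v0 = 2 * a + 1 := ⟨v0 / 2, by omega⟩
    obtain ⟨a1, ha1⟩ : ∃ a, v1 = 2 * a + 1 := ⟨v1 / 2, by omega⟩
    obtain ⟨a2, ha2⟩ : ∃ a, v2 = 2 * a + 1 := ⟨v2 / 2, by omega⟩
    have hs : c0 + c1 + c2 = 2 * (-(a0 * c0 + a1 * c1 + a2 * c2)) := by
      rw [ha0, ha1, ha2] at hv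
      linarith
    set t := -(a0 * c0 + a1 * c1 + a2 * c2) with ht
    have two : ∀ k : ℕ, D = 2 * k → k % 2 = 1 → Odd (D.factorization 2) := by
      intro k hk hk1
      have hk0 : k ≠ 0 := by omega
      rw [hk, Nat.factorization_mul two_ne_zero hk0, Finsupp.add_apply,
        Nat.Prime.factorization_self Nat.prime_two,
        Nat.factorization_eq_zero_of_not_dvd (by omega)]
      decide
    rcases Int.emod_two_eq_zero_or_one c0 with e0 | e0 <;>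
      rcases Int.emod_two_eq_zero_or_one c1 with e1 | e1 <;>
      rcases Int.emod_two_eq_zero_or_one c2 with e2 | e2
    · -- all even
      obtain ⟨b0, hb0⟩ : ∃ b, c0 = 2 * b := ⟨c0 / 2, by omega⟩
      obtain ⟨b1, hb1⟩ : ∃ b, c1 = 2 * b := ⟨c1 / 2, by omega⟩
      obtain ⟨b2, hb2⟩ : ∃ b, c2 = 2 * b := ⟨c2 / 2, by omega⟩
      have h4 : (D : ℤ) = 4 * (b0 ^ 2 + b1 ^ 2 + b2 ^ 2) := by
        rw [hDD, hb0, hb1, hb2]; ring
      obtain ⟨k, hk⟩ : ∃ k : ℕ, D = 4 * k := ⟨D / 4, by omega⟩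
      have hk0 : 0 < k := by omega
      have h5 := ih k (by omega) b0 b1 b2 hk0 (by
        have : (4 : ℤ) * k = 4 * (b0 ^ 2 + b1 ^ 2 + b2 ^ 2) := by
          rw [← h4, hk]; push_cast; ring
        linarith) (by
        rw [hb0, hb1, hb2] at hv
        linarith)
      rw [hk, show 4 * k = 2 ^ 2 * k by ring, Nat.factorization_mul (by norm_num) hk0.ne',
        Finsupp.add_apply, Nat.factorization_pow, Finsupp.smul_apply,
        Nat.Prime.factorization_self Nat.prime_two]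
      rw [Nat.odd_iff] at h5 ⊢
      simp only [smul_eq_mul]
      omega
    · omega
    · omega
    · obtain ⟨b0, hb0⟩ : ∃ b, c0 = 2 * b := ⟨c0 / 2, by omega⟩
      obtain ⟨b1, hb1⟩ : ∃ b, c1 = 2 * b + 1 := ⟨c1 / 2, by omega⟩
      obtain ⟨b2, hb2⟩ : ∃ b, c2 = 2 * b + 1 := ⟨c2 / 2, by omega⟩
      have h4 : (D : ℤ) = 2 * (2 * (b0 ^ 2 + b1 ^ 2 + b1 + b2 ^ 2 + b2) + 1) := by
        rw [hDD, hb0, hb1, hb2]; ring
      exact two (D / 2) (by omega) (by omega)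
    · omega
    · obtain ⟨b0, hb0⟩ : ∃ b, c0 = 2 * b + 1 := ⟨c0 / 2, by omega⟩
      obtain ⟨b1, hb1⟩ : ∃ b, c1 = 2 * b := ⟨c1 / 2, by omega⟩
      obtain ⟨b2, hb2⟩ : ∃ b, c2 = 2 * b + 1 := ⟨c2 / 2, by omega⟩
      have h4 : (D : ℤ) = 2 * (2 * (b0 ^ 2 + b0 + b1 ^ 2 + b2 ^ 2 + b2) + 1) := by
        rw [hDD, hb0, hb1, hb2]; ring
      exact two (D / 2) (by omega) (by omega)
    · obtain ⟨b0, hb0⟩ : ∃ b, c0 = 2 * b + 1 := ⟨c0 / 2, by omega⟩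
      obtain ⟨b1, hb1⟩ : ∃ b, c1 = 2 * b + 1 := ⟨c1 / 2, by omega⟩
      obtain ⟨b2, hb2⟩ : ∃ b, c2 = 2 * b := ⟨c2 / 2, by omega⟩
      have h4 : (D : ℤ) = 2 * (2 * (b0 ^ 2 + b0 + b1 ^ 2 + b1 + b2 ^ 2) + 1) := by
        rw [hDD, hb0, hb1, hb2]; ring
      exact two (D / 2) (by omega) (by omega)
    · omega

theorem sq_mod8 (a : ℤ) : a ^ 2 % 8 = 0 ∧ a % 2 = 0 ∨ a ^ 2 % 8 = 4 ∧ a % 2 = 0 ∨
    a ^ 2 % 8 = 1 ∧ a % 2 = 1 := by
  have h : a % 8 = 0 ∨ a % 8 = 1 ∨ a % 8 = 2 ∨ a % 8 = 3 ∨ a % 8 = 4 ∨ a % 8 = 5 ∨ a % 8 = 6 ∨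
      a % 8 = 7 := by omega
  rcases h with h | h | h | h | h | h | h | h <;> (rw [pow_two, Int.mul_emod, h]; norm_num; omega)

theorem t_EV : S_EV := by
  intro n1 n2 b D _ h1 h2 _ hD hDD hodd
  rw [cp, Finset.card_eq_zero, Finset.filter_eq_empty_iff]
  rintro ⟨v, w⟩ hvw hb
  apply hodd
  simp only [Finset.mem_product, vec, Finset.mem_filter] at hvw
  obtain ⟨⟨_, hv⟩, ⟨_, hw⟩⟩ := hvw
  simp only [dotProduct, Fin.sum_univ_three] at hv hw hb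
  have e0 := sq_mod8 (v 0)
  have e1 := sq_mod8 (v 1)
  have e2 := sq_mod8 (v 2)
  have hv' : (n1 : ℤ) = v 0 ^ 2 + v 1 ^ 2 + v 2 ^ 2 := by rw [← hv]; ring
  have hodd3 : v 0 % 2 = 1 ∧ v 1 % 2 = 1 ∧ v 2 % 2 = 1 := by omega
  refine ev_key (v 0) (v 1) (v 2) hodd3.1 hodd3.2.1 hodd3.2.2 D (v 1 * w 2 - v 2 * w 1)
    (v 2 * w 0 - v 0 * w 2) (v 0 * w 1 - v 1 * w 0) hD ?_ (by ring)
  rw [hDD, ← hv, ← hw, ← hb]
  ring

end Pool.Agent.Z700
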