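import Pool.Agent.Y246.Z700.JAC

/-! Z700-JAC (job 1789, helper246 for helper700) -/

namespace Pool.Agent.Z700

theorem t_JAC : S_JAC := Pool.Agent.Y246.Z700.t_JAC

end Pool.Agent.Z700
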