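import Pool.Agent.Z700.Defs

/-!
# The sums over the vectors with a given line and orientation (S_SG, S_SG1)
-/

set_option autoImplicit false

namespace Pool.Agent.Z700

open Finset Matrix

namespace SGw

theorem mem_vec {n : ℤ} {v : V3} : v ∈ vec n ↔ v ⬝ᵥ v = n := by
  unfold vec
  rw [Finset.mem_filter, Fintype.mem_piFinset]
  refine ⟨fun h => h.2, fun h => ⟨fun i => ?_, h⟩⟩
  have h1 : v i * v i ≤ n := by
    rw [← h, dotProduct]
    exact Finset.single_le_sum (f := fun i => v i * v i) (fun j _ => mul_self_nonneg (v j))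
      (Finset.mem_univ i)
  rw [Finset.mem_Icc]
  constructor
  · rcases le_or_gt 0 (v i) with h2 | h2
    · nlinarith
    · nlinarith
  · rcases le_or_gt (v i) 0 with h2 | h2
    · nlinarith
    · nlinarith

theorem dot3 (v w : V3) : v ⬝ᵥ w = v 0 * w 0 + v 1 * w 1 + v 2 * w 2 := by
  rw [dotProduct, Fin.sum_univ_three]

theorem ep_mk (a b c : ℤ) : ep ![a, b, c] = if (a * b * c) % 4 = 1 then 1 else -1 := rfl

theorem chv_mk (a b c : ℤ) : chv ![a, b, c] = chi3 a * chi3 b * chi3 c := rfl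

/-- transport of the sums along a bijection -/
theorem sg_map (N : ℤ) (n n' : Fin 3 → ZMod 7) (β : ZMod 7) (ε ε' δ : ℤ) (T S : V3 → V3)
    (hTS : ∀ v, T (S v) = v) (hST : ∀ v, S (T v) = v)
    (hd : ∀ v, T v ⬝ᵥ T v = v ⬝ᵥ v)
    (hL : ∀ v, Ln n' β (T v) ↔ Ln n β v)
    (he : ∀ v ∈ vec N, (ep (T v) = ε' ↔ ep v = ε))
    (hc : ∀ v, chv (T v) = δ * chv v) : Sg N n' β ε' = δ * Sg N n β ε := by
  unfold Sg
  rw [Finset.mul_sum]
  symm
  refine Finset.sum_nbij' T S ?_ ?_ ?_ ?_ ?_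
  · intro v hv
    rw [Finset.mem_filter] at hv ⊢
    refine ⟨?_, (hL v).2 hv.2.1, (he v hv.1).2 hv.2.2⟩
    rw [mem_vec, hd, ← mem_vec]
    exact hv.1
  · intro v hv
    rw [Finset.mem_filter] at hv ⊢
    have h1 : S v ∈ vec N := by
      rw [mem_vec, ← hd, hTS, ← mem_vec]
      exact hv.1
    refine ⟨h1, ?_, ?_⟩
    · rw [← hL, hTS]; exact hv.2.1
    · rw [← he _ h1, hTS]; exact hv.2.2
  · intro v _
    exact hST v
  · intro v _
    exact hTS v
  · intro v _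
    exact (hc v).symm

theorem chi3_neg (n : ℤ) : chi3 (-n) = - chi3 n := by
  unfold chi3
  have h : n % 3 = 0 ∨ n % 3 = 1 ∨ n % 3 = 2 := by omega
  rcases h with h | h | h
  · have : (-n) % 3 = 0 := by omega
    rw [this, h]; rfl
  · have : (-n) % 3 = 2 := by omega
    rw [this, h]; rfl
  · have : (-n) % 3 = 1 := by omega
    rw [this, h]; rfl

theorem sg_s1 (N : ℤ) (n : Fin 3 → ZMod 7) (β : ZMod 7) (ε : ℤ) :
    Sg N ![-n 0, -n 1, n 2] β ε = Sg N n β ε := by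
  have := sg_map N n ![-n 0, -n 1, n 2] β ε ε 1 (fun v => ![-v 0, -v 1, v 2])
    (fun v => ![-v 0, -v 1, v 2]) ?_ ?_ ?_ ?_ ?_ ?_
  · rw [this, one_mul]
  · intro v
    ext i
    fin_cases i <;> simp
  · intro v
    ext i
    fin_cases i <;> simp
  · intro v
    rw [dot3, dot3]
    simp
  · intro v
    unfold Ln
    simp only [Matrix.cons_val_zero, Matrix.cons_val_one, Matrix.cons_val]
    push_cast
    constructor
    · rintro ⟨h1, h2, h3⟩
      refine ⟨?_, ?_, ?_⟩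
      · linear_combination -h1
      · linear_combination -h2
      · linear_combination h3
    · rintro ⟨h1, h2, h3⟩
      refine ⟨?_, ?_, ?_⟩
      · linear_combination -h1
      · linear_combination -h2
      · linear_combination h3
  · intro v _
    rw [ep_mk, show -v 0 * -v 1 * v 2 = v 0 * v 1 * v 2 by ring]
    rfl
  · intro v
    rw [chv_mk, chv, chi3_neg, chi3_neg]
    ring

theorem sg_s2 (N : ℤ) (n : Fin 3 → ZMod 7) (β : ZMod 7) (ε : ℤ) :
    Sg N ![n 0, -n 1, -n 2] β ε = Sg N n β ε := by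
  have := sg_map N n ![n 0, -n 1, -n 2] β ε ε 1 (fun v => ![v 0, -v 1, -v 2])
    (fun v => ![v 0, -v 1, -v 2]) ?_ ?_ ?_ ?_ ?_ ?_
  · rw [this, one_mul]
  · intro v
    ext i
    fin_cases i <;> simp
  · intro v
    ext i
    fin_cases i <;> simp
  · intro v
    rw [dot3, dot3]
    simp
  · intro v
    unfold Ln
    simp only [Matrix.cons_val_zero, Matrix.cons_val_one, Matrix.cons_val]
    push_cast
    constructor
    · rintro ⟨h1, h2, h3⟩
      refine ⟨?_, ?_, ?_⟩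
      · linear_combination h1
      · linear_combination -h2
      · linear_combination -h3
    · rintro ⟨h1, h2, h3⟩
      refine ⟨?_, ?_, ?_⟩
      · linear_combination h1
      · linear_combination -h2
      · linear_combination -h3
  · intro v _
    rw [ep_mk, show v 0 * -v 1 * -v 2 = v 0 * v 1 * v 2 by ring]
    rfl
  · intro v
    rw [chv_mk, chv, chi3_neg, chi3_neg]
    ring

/-- all coordinates of the vectors are odd -/
def Od (N : ℤ) : Prop := ∀ v ∈ vec N, v 0 % 2 = 1 ∧ v 1 % 2 = 1 ∧ v 2 % 2 = 1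

theorem od_of {N : ℤ} (h : N % 8 = 3) : Od N := by
  intro v hv
  rw [mem_vec, dot3] at hv
  have key : ∀ x : ℤ, (x % 2 = 1 ∧ x * x % 8 = 1) ∨ (x % 2 = 0 ∧ (x * x % 8 = 0 ∨ x * x % 8 = 4)) := by
    intro x
    have h8 : x % 8 = 0 ∨ x % 8 = 1 ∨ x % 8 = 2 ∨ x % 8 = 3 ∨ x % 8 = 4 ∨ x % 8 = 5 ∨ x % 8 = 6 ∨
      x % 8 = 7 := by omega
    have h9 : x * x % 8 = (x % 8) * (x % 8) % 8 := Int.mul_emod x x 8
    rcases h8 with h8 | h8 | h8 | h8 | h8 | h8 | h8 | h8 <;>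
      · rw [h8] at h9
        omega
  have a := key (v 0)
  have b := key (v 1)
  have c := key (v 2)
  omega

theorem od_prod {x y z : ℤ} (hx : x % 2 = 1) (hy : y % 2 = 1) (hz : z % 2 = 1) :
    (x * y * z) % 2 = 1 := by
  rw [Int.mul_emod, Int.mul_emod x y, hx, hy, hz]; rfl

theorem sg_g1 (N : ℤ) (hN : Od N) (n : Fin 3 → ZMod 7) (β : ZMod 7) (ε : ℤ)
    (hε : ε = 1 ∨ ε = -1) :
    Sg N ![n 0, n 2, -n 1] β (-ε) = -Sg N n β ε := by
  have := sg_map N n ![n 0, n 2, -n 1] β ε (-ε) (-1) (fun v => ![v 0, v 2, -v 1])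
    (fun v => ![v 0, -v 2, v 1]) ?_ ?_ ?_ ?_ ?_ ?_
  · rw [this]; ring
  · intro v
    ext i
    fin_cases i <;> simp
  · intro v
    ext i
    fin_cases i <;> simp
  · intro v
    rw [dot3, dot3]
    simp only [Matrix.cons_val_zero, Matrix.cons_val_one, Matrix.cons_val]
    ring
  · intro v
    unfold Ln
    simp only [Matrix.cons_val_zero, Matrix.cons_val_one, Matrix.cons_val]
    push_cast
    constructor
    · rintro ⟨h1, h2, h3⟩
      refine ⟨?_, ?_, ?_⟩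
      · linear_combination h1
      · linear_combination -h3
      · linear_combination h2
    · rintro ⟨h1, h2, h3⟩
      refine ⟨?_, ?_, ?_⟩
      · linear_combination h1
      · linear_combination h3
      · linear_combination -h2
  · intro v hv
    obtain ⟨a, b, c⟩ := hN v hv
    have hp := od_prod a b c
    rw [ep_mk, show v 0 * v 2 * -v 1 = -(v 0 * v 1 * v 2) by ring, ep]
    generalize v 0 * v 1 * v 2 = t at hp ⊢
    have h4 : t % 4 = 1 ∨ t % 4 = 3 := by omega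
    rcases h4 with h4 | h4
    · have : ¬ (-t) % 4 = 1 := by omega
      rw [if_neg this, if_pos h4]
      rcases hε with rfl | rfl <;> simp
    · have h5 : (-t) % 4 = 1 := by omega
      have h6 : ¬ t % 4 = 1 := by omega
      rw [if_pos h5, if_neg h6]
      rcases hε with rfl | rfl <;> simp
  · intro v
    rw [chv_mk, chv, chi3_neg]
    ring

instance : Fact (Nat.Prime 7) := ⟨by norm_num⟩

theorem sg_smul (N : ℤ) (n : Fin 3 → ZMod 7) (β k : ZMod 7) (ε : ℤ) (hk : k ≠ 0) :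
    Sg N (fun i => k * n i) β ε = Sg N n β ε := by
  unfold Sg
  have : ∀ v, Ln (fun i => k * n i) β v ↔ Ln n β v := by
    intro v
    unfold Ln
    constructor
    · rintro ⟨h1, h2, h3⟩
      refine ⟨mul_left_cancel₀ hk ?_, mul_left_cancel₀ hk ?_, mul_left_cancel₀ hk ?_⟩
      · linear_combination h1
      · linear_combination h2
      · linear_combination h3
    · rintro ⟨h1, h2, h3⟩
      refine ⟨?_, ?_, ?_⟩
      · linear_combination k * h1
      · linear_combination k * h2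
      · linear_combination k * h3
  refine Finset.sum_congr ?_ fun _ _ => rfl
  ext v
  simp only [Finset.mem_filter, this]

set_option synthInstance.maxSize 2000 in
theorem cls1 : ∀ x y z : ZMod 7, x ^ 2 + y ^ 2 + z ^ 2 = 0 → ¬ (x = 0 ∧ y = 0 ∧ z = 0) →
    y ^ 2 = 4 * x ^ 2 → ∃ k : ZMod 7, k ≠ 0 ∧ ((x = k * 1 ∧ y = k * 2 ∧ z = k * 3) ∨
      (x = k * -1 ∧ y = k * -2 ∧ z = k * 3) ∨ (x = k * 1 ∧ y = k * -2 ∧ z = k * -3) ∨
      (x = k * -1 ∧ y = k * 2 ∧ z = k * -3)) := by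
  decide +kernel

set_option synthInstance.maxSize 2000 in
theorem cls2 : ∀ x y z : ZMod 7, x ^ 2 + y ^ 2 + z ^ 2 = 0 → ¬ (x = 0 ∧ y = 0 ∧ z = 0) →
    ¬ y ^ 2 = 4 * x ^ 2 → ∃ k : ZMod 7, k ≠ 0 ∧ ((x = k * 1 ∧ y = k * 3 ∧ z = k * 2) ∨
      (x = k * -1 ∧ y = k * -3 ∧ z = k * 2) ∨ (x = k * 1 ∧ y = k * -3 ∧ z = k * -2) ∨
      (x = k * -1 ∧ y = k * 3 ∧ z = k * -2)) := by
  decide +kernel

theorem sg_norm (N : ℤ) (a b : ZMod 7) (β : ZMod 7) (ε : ℤ) (n : Fin 3 → ZMod 7) (k : ZMod 7)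
    (hk : k ≠ 0)
    (h : (n 0 = k * 1 ∧ n 1 = k * a ∧ n 2 = k * b) ∨
      (n 0 = k * -1 ∧ n 1 = k * -a ∧ n 2 = k * b) ∨ (n 0 = k * 1 ∧ n 1 = k * -a ∧ n 2 = k * -b) ∨
      (n 0 = k * -1 ∧ n 1 = k * a ∧ n 2 = k * -b)) :
    Sg N n β ε = Sg N ![1, a, b] β ε := by
  rcases h with ⟨h0, h1, h2⟩ | ⟨h0, h1, h2⟩ | ⟨h0, h1, h2⟩ | ⟨h0, h1, h2⟩
  · have hn : n = fun i => k * (![1, a, b] : Fin 3 → ZMod 7) i := by
      ext i
      fin_cases i
      · simpa using h0
      · simpa using h1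
      · simpa using h2
    rw [hn, sg_smul _ _ _ _ _ hk]
  · have hn : n = fun i => k * (![-(![1, a, b] : Fin 3 → ZMod 7) 0, -(![1, a, b] : Fin 3 → ZMod 7) 1,
        (![1, a, b] : Fin 3 → ZMod 7) 2] : Fin 3 → ZMod 7) i := by
      ext i
      fin_cases i
      · simpa using h0
      · simpa using h1
      · simpa using h2
    rw [hn, sg_smul _ _ _ _ _ hk, sg_s1]
  · have hn : n = fun i => k * (![(![1, a, b] : Fin 3 → ZMod 7) 0, -(![1, a, b] : Fin 3 → ZMod 7) 1,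
        -(![1, a, b] : Fin 3 → ZMod 7) 2] : Fin 3 → ZMod 7) i := by
      ext i
      fin_cases i
      · simpa using h0
      · simpa using h1
      · simpa using h2
    rw [hn, sg_smul _ _ _ _ _ hk, sg_s2]
  · set m : Fin 3 → ZMod 7 := ![(![1, a, b] : Fin 3 → ZMod 7) 0, -(![1, a, b] : Fin 3 → ZMod 7) 1,
        -(![1, a, b] : Fin 3 → ZMod 7) 2] with hm
    have hn : n = fun i => k * (![-m 0, -m 1, m 2] : Fin 3 → ZMod 7) i := by
      ext i
      fin_cases i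
      · simpa [hm] using h0
      · simpa [hm] using h1
      · simpa [hm] using h2
    rw [hn, sg_smul _ _ _ _ _ hk, sg_s1, hm, sg_s2]

/-- the second base vector -/
def n1 : Fin 3 → ZMod 7 := ![1, 3, 2]

theorem sgl_cases (n : Fin 3 → ZMod 7) : sgl n = 1 ∨ sgl n = -1 := by
  unfold sgl
  split_ifs
  · exact Or.inl rfl
  · exact Or.inr rfl

theorem ne_zero3 {n : Fin 3 → ZMod 7} (h : n ≠ 0) : ¬ (n 0 = 0 ∧ n 1 = 0 ∧ n 2 = 0) := by
  rintro ⟨h0, h1, h2⟩
  apply h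
  ext i
  fin_cases i
  · exact h0
  · exact h1
  · exact h2

theorem sg_pos (N : ℤ) (β : ZMod 7) (ε : ℤ) (n : Fin 3 → ZMod 7) (hn : n ≠ 0)
    (hi : n 0 ^ 2 + n 1 ^ 2 + n 2 ^ 2 = 0) (hs : sgl n = 1) : Sg N n β ε = Sg N n0 β ε := by
  have hs' : n 1 ^ 2 = 4 * n 0 ^ 2 := by
    unfold sgl at hs
    by_contra hc
    rw [if_neg hc] at hs
    norm_num at hs
  obtain ⟨k, hk, h⟩ := cls1 _ _ _ hi (ne_zero3 hn) hs'
  exact sg_norm N 2 3 β ε n k hk h

theorem sg_neg (N : ℤ) (β : ZMod 7) (ε : ℤ) (n : Fin 3 → ZMod 7) (hn : n ≠ 0)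
    (hi : n 0 ^ 2 + n 1 ^ 2 + n 2 ^ 2 = 0) (hs : sgl n ≠ 1) : Sg N n β ε = Sg N n1 β ε := by
  have hs' : ¬ n 1 ^ 2 = 4 * n 0 ^ 2 := by
    unfold sgl at hs
    intro hc
    rw [if_pos hc] at hs
    exact hs rfl
  obtain ⟨k, hk, h⟩ := cls2 _ _ _ hi (ne_zero3 hn) hs'
  exact sg_norm N 3 2 β ε n k hk h

/-- the orientation exchanges the two types -/
theorem sg_n0 (N : ℤ) (hN : Od N) (β : ZMod 7) (ε : ℤ) (hε : ε = 1 ∨ ε = -1) :
    Sg N n1 β (-ε) = -Sg N n0 β ε := by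
  rw [← sg_g1 N hN n0 β ε hε]
  symm
  apply sg_neg
  · intro h
    have := congrFun h 0
    simp [n0] at this
  · simp only [n0, Matrix.cons_val_zero, Matrix.cons_val_one, Matrix.cons_val]
    decide
  · unfold sgl
    simp only [n0, Matrix.cons_val_zero, Matrix.cons_val_one, Matrix.cons_val]
    decide

/-- the eight isotropic lines -/
def rp : Fin 8 → ZMod 7 × ZMod 7 := ![(2, 3), (2, 4), (5, 3), (5, 4), (3, 2), (3, 5), (4, 2), (4, 5)]

theorem uniq : ∀ x y z b : ZMod 7, b ≠ 0 → x ^ 2 + y ^ 2 + z ^ 2 = -b ^ 2 →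
    (∑ i : Fin 8, if (y * (rp i).2 - z * (rp i).1 = b * 1 ∧ z * 1 - x * (rp i).2 = b * (rp i).1 ∧
      x * (rp i).1 - y * 1 = b * (rp i).2) then (1 : ℤ) else 0) = 1 := by
  decide +kernel

theorem ep_cases (v : V3) : ep v = 1 ∨ ep v = -1 := by
  unfold ep
  split_ifs
  · exact Or.inl rfl
  · exact Or.inr rfl

theorem iso_rp : ∀ i : Fin 8, (1 : ZMod 7) ^ 2 + (rp i).1 ^ 2 + (rp i).2 ^ 2 = 0 := by decide

theorem sum_rp (N : ℤ) (β : ZMod 7) (hβ : β ≠ 0) (hN : (N : ZMod 7) = -β ^ 2) (ε : ℤ) :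
    ∑ i : Fin 8, Sg N ![1, (rp i).1, (rp i).2] β ε = ∑ v ∈ (vec N).filter fun v => ep v = ε, chv v := by
  have h1 : ∀ i : Fin 8, Sg N ![1, (rp i).1, (rp i).2] β ε =
      ∑ v ∈ (vec N).filter fun v => ep v = ε, chv v * (if ((v 1 : ZMod 7) * (rp i).2 - (v 2 : ZMod 7) * (rp i).1 = β * 1 ∧
        (v 2 : ZMod 7) * 1 - (v 0 : ZMod 7) * (rp i).2 = β * (rp i).1 ∧
      (v 0 : ZMod 7) * (rp i).1 - (v 1 : ZMod 7) * 1 = β * (rp i).2) then (1 : ℤ) else 0) := by
    intro i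
    unfold Sg
    rw [Finset.sum_filter, Finset.sum_filter]
    refine Finset.sum_congr rfl fun v _ => ?_
    unfold Ln
    simp only [Matrix.cons_val_zero, Matrix.cons_val_one, Matrix.cons_val]
    by_cases h2 : ep v = ε
    · simp only [h2, and_true, if_true]
      split_ifs
      · rw [mul_one]
      · rw [mul_zero]
    · simp only [h2, and_false, if_false]
  simp only [h1]
  rw [Finset.sum_comm]
  refine Finset.sum_congr rfl fun v hv => ?_
  rw [← Finset.mul_sum]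
  have h3 : v ∈ vec N := (Finset.mem_filter.1 hv).1
  rw [mem_vec, dot3] at h3
  have h4 : (v 0 : ZMod 7) ^ 2 + (v 1 : ZMod 7) ^ 2 + (v 2 : ZMod 7) ^ 2 = -β ^ 2 := by
    rw [← hN, ← h3]
    push_cast
    ring
  rw [uniq _ _ _ _ hβ h4, mul_one]

theorem chi_mul (n : ℤ) (h : n % 2 = 1) : chi12 n = chi3 n * (if n % 4 = 1 then 1 else -1) := by
  unfold chi12 chi3
  have h12 : n % 12 = 1 ∨ n % 12 = 3 ∨ n % 12 = 5 ∨ n % 12 = 7 ∨ n % 12 = 9 ∨ n % 12 = 11 := by omega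
  rcases h12 with h12 | h12 | h12 | h12 | h12 | h12
  · have a : n % 3 = 1 := by omega
    have b : n % 4 = 1 := by omega
    rw [h12, a, b]; rfl
  · have a : n % 3 = 0 := by omega
    have b : n % 4 = 3 := by omega
    rw [h12, a, b]; rfl
  · have a : n % 3 = 2 := by omega
    have b : n % 4 = 1 := by omega
    rw [h12, a, b]; rfl
  · have a : n % 3 = 1 := by omega
    have b : n % 4 = 3 := by omega
    rw [h12, a, b]; rfl
  · have a : n % 3 = 0 := by omega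
    have b : n % 4 = 1 := by omega
    rw [h12, a, b]; rfl
  · have a : n % 3 = 2 := by omega
    have b : n % 4 = 3 := by omega
    rw [h12, a, b]; rfl

theorem ep_mul (v : V3) (h0 : v 0 % 2 = 1) (h1 : v 1 % 2 = 1) (h2 : v 2 % 2 = 1) :
    ep v = (if v 0 % 4 = 1 then 1 else -1) * (if v 1 % 4 = 1 then 1 else -1) *
      (if v 2 % 4 = 1 then 1 else -1) := by
  unfold ep
  have a : v 0 % 4 = 1 ∨ v 0 % 4 = 3 := by omega
  have b : v 1 % 4 = 1 ∨ v 1 % 4 = 3 := by omega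
  have c : v 2 % 4 = 1 ∨ v 2 % 4 = 3 := by omega
  rw [Int.mul_emod, Int.mul_emod (v 0) (v 1)]
  rcases a with a | a <;> rcases b with b | b <;> rcases c with c | c <;> rw [a, b, c] <;> rfl

theorem chv_ep (v : V3) (h0 : v 0 % 2 = 1) (h1 : v 1 % 2 = 1) (h2 : v 2 % 2 = 1) :
    chv v * ep v = chi12 (v 0) * chi12 (v 1) * chi12 (v 2) := by
  rw [ep_mul v h0 h1 h2, chi_mul _ h0, chi_mul _ h1, chi_mul _ h2]
  unfold chv
  ring

theorem sum_chv (N : ℤ) : ∑ v ∈ vec N, chv v = 0 := by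
  have h : ∑ v ∈ vec N, chv v = ∑ v ∈ vec N, -chv v := by
    refine Finset.sum_nbij' (fun v => -v) (fun v => -v) ?_ ?_ ?_ ?_ ?_
    · intro v hv
      rw [mem_vec] at hv ⊢
      rw [neg_dotProduct_neg]
      exact hv
    · intro v hv
      rw [mem_vec] at hv ⊢
      rw [neg_dotProduct_neg]
      exact hv
    · intro v _
      exact neg_neg v
    · intro v _
      exact neg_neg v
    · intro v _
      unfold chv
      simp only [Pi.neg_apply, chi3_neg]
      ring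
  rw [Finset.sum_neg_distrib] at h
  linarith

theorem sum_ep (N : ℤ) (hN : Od N)
    (hJ : ∑ v ∈ vec N, chi12 (v 0) * chi12 (v 1) * chi12 (v 2) = 0) :
    ∑ v ∈ (vec N).filter fun v => ep v = 1, chv v = 0 := by
  have h1 : ∑ v ∈ (vec N).filter (fun v => ep v = 1), chv v * 2 =
      ∑ v ∈ vec N, chv v + ∑ v ∈ vec N, chi12 (v 0) * chi12 (v 1) * chi12 (v 2) := by
    rw [← Finset.sum_add_distrib, Finset.sum_filter]
    refine Finset.sum_congr rfl fun v hv => ?_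
    obtain ⟨a, b, c⟩ := hN v hv
    rw [← chv_ep v a b c]
    rcases ep_cases v with h | h
    · rw [h, if_pos rfl]; ring
    · rw [h, if_neg (by norm_num)]; ring
  rw [← Finset.sum_mul, sum_chv, hJ] at h1
  linarith

theorem split_ep (N : ℤ) (n : Fin 3 → ZMod 7) (β : ZMod 7) :
    ∑ v ∈ (vec N).filter (fun v => Ln n β v), chv v = Sg N n β 1 + Sg N n β (-1) := by
  unfold Sg
  rw [Finset.sum_filter, Finset.sum_filter, Finset.sum_filter, ← Finset.sum_add_distrib]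
  refine Finset.sum_congr rfl fun v _ => ?_
  rcases ep_cases v with h | h
  · rw [h]
    by_cases hL : Ln n β v
    · rw [if_pos hL, if_pos ⟨hL, rfl⟩, if_neg (by norm_num), add_zero]
    · rw [if_neg hL, if_neg (fun k => hL k.1), if_neg (fun k => hL k.1), add_zero]
  · rw [h]
    by_cases hL : Ln n β v
    · rw [if_pos hL, if_neg (by norm_num), if_pos ⟨hL, rfl⟩, zero_add]
    · rw [if_neg hL, if_neg (fun k => hL k.1), if_neg (fun k => hL k.1), add_zero]

/-! ### the product of the primes -/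

theorem pr_mod24 (P : Finset ℕ) (hP : ∀ p ∈ P, Fam p) : pr P % 24 = 1 := by
  unfold pr
  induction P using Finset.induction_on with
  | empty => rfl
  | insert a s ha ih =>
    rw [Finset.prod_insert ha, Nat.mul_mod, ih fun p hp => hP p (Finset.mem_insert_of_mem hp),
      (hP a (Finset.mem_insert_self a s)).2.1]

theorem be_sq (P : Finset ℕ) (hP : ∀ p ∈ P, Fam p) : be P ^ 2 = 4 * (pr P : ZMod 7) := by
  unfold be pr
  rw [mul_pow, ← Finset.prod_pow, show (2 : ZMod 7) ^ 2 = 4 by decide]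
  push_cast
  congr 1
  refine Finset.prod_congr rfl fun p hp => ?_
  · obtain ⟨_, _, h7⟩ := hP p hp
    unfold sq7
    have hc : (p : ZMod 7) = ((p % 7 : ℕ) : ZMod 7) := by
      rw [ZMod.natCast_mod]
    rw [hc]
    rcases h7 with h | h | h
    · rw [h, if_pos rfl]; decide
    · rw [h, if_neg (by norm_num), if_pos rfl]; decide
    · rw [h, if_neg (by norm_num), if_neg (by norm_num)]; decide

theorem be_ne (P : Finset ℕ) : be P ≠ 0 := by
  unfold be
  rw [mul_ne_zero_iff]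
  refine ⟨by decide, ?_⟩
  rw [Finset.prod_ne_zero_iff]
  intro p _
  unfold sq7
  split_ifs <;> decide

theorem pr_not_sq (P : Finset ℕ) (hP : ∀ p ∈ P, Fam p) (hne : P.Nonempty) (k : ℕ) :
    pr P ≠ k ^ 2 := by
  intro h
  obtain ⟨p, hp⟩ := hne
  have hpp := (hP p hp).1
  have h1 : pr P = p * pr (P.erase p) := by
    unfold pr
    rw [Finset.mul_prod_erase P (fun x => x) hp]
  have h2 : p ∣ k := by
    apply hpp.dvd_of_dvd_pow (n := 2)
    rw [← h, h1]
    exact dvd_mul_right _ _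
  obtain ⟨j, rfl⟩ := h2
  have h3 : p * pr (P.erase p) = p * (p * j ^ 2) := by
    rw [← h1, h]; ring
  have h4 : pr (P.erase p) = p * j ^ 2 := Nat.eq_of_mul_eq_mul_left hpp.pos h3
  have h5 : p ∣ pr (P.erase p) := by rw [h4]; exact dvd_mul_right _ _
  unfold pr at h5
  rw [hpp.prime.dvd_finsetProd_iff] at h5
  obtain ⟨q, hq, hpq⟩ := h5
  rw [Finset.mem_erase] at hq
  exact hq.1 ((Nat.prime_dvd_prime_iff_eq hpp (hP q hq.2).1).1 hpq).symm

end SGw

open SGw

theorem t_SG (hJ : S_JAC) : S_SG := by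
  intro P hP hne n hn hi ε hε
  have h24 := pr_mod24 P hP
  have hN8 : (3 * (pr P : ℤ)) % 8 = 3 := by omega
  have hO := od_of hN8
  have hβ := be_ne P
  have hβ2 : ((3 * (pr P : ℤ) : ℤ) : ZMod 7) = -be P ^ 2 := by
    rw [be_sq P hP]
    push_cast
    have : (3 : ZMod 7) = -4 := by decide
    rw [this]
    ring
  have hJ' := hJ (3 * pr P) (by
    rintro ⟨k, hk⟩
    exact pr_not_sq P hP hne k (by omega))
  have hcast : ((3 * pr P : ℕ) : ℤ) = 3 * (pr P : ℤ) := by push_cast; rfl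
  rw [hcast] at hJ'
  have hT := sum_ep _ hO hJ'
  have hS := sum_rp (3 * (pr P : ℤ)) (be P) hβ hβ2 1
  rw [hT] at hS
  set N : ℤ := 3 * (pr P : ℤ) with hNdef
  have hr : ∀ i : Fin 8, Sg N ![1, (rp i).1, (rp i).2] (be P) 1 =
      if (rp i).1 ^ 2 = 4 * 1 ^ 2 then Sg N n0 (be P) 1 else Sg N n1 (be P) 1 := by
    intro i
    have hnz : (![1, (rp i).1, (rp i).2] : Fin 3 → ZMod 7) ≠ 0 := by
      intro h
      have := congrFun h 0
      simp at this
    have hiso : (![1, (rp i).1, (rp i).2] : Fin 3 → ZMod 7) 0 ^ 2 +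
        (![1, (rp i).1, (rp i).2] : Fin 3 → ZMod 7) 1 ^ 2 +
        (![1, (rp i).1, (rp i).2] : Fin 3 → ZMod 7) 2 ^ 2 = 0 := iso_rp i
    split_ifs with h
    · apply sg_pos _ _ _ _ hnz hiso
      unfold sgl
      exact if_pos h
    · apply sg_neg _ _ _ _ hnz hiso
      unfold sgl
      rw [if_neg (by exact h)]
      norm_num
  rw [Finset.sum_congr rfl fun i _ => hr i, Fin.sum_univ_eight] at hS
  have e0 : (rp 0).1 ^ 2 = 4 * 1 ^ 2 := by decide
  have e1 : (rp 1).1 ^ 2 = 4 * 1 ^ 2 := by decide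
  have e2 : (rp 2).1 ^ 2 = 4 * 1 ^ 2 := by decide
  have e3 : (rp 3).1 ^ 2 = 4 * 1 ^ 2 := by decide
  have e4 : ¬ (rp 4).1 ^ 2 = 4 * 1 ^ 2 := by decide
  have e5 : ¬ (rp 5).1 ^ 2 = 4 * 1 ^ 2 := by decide
  have e6 : ¬ (rp 6).1 ^ 2 = 4 * 1 ^ 2 := by decide
  have e7 : ¬ (rp 7).1 ^ 2 = 4 * 1 ^ 2 := by decide
  rw [if_pos e0, if_pos e1, if_pos e2, if_pos e3, if_neg e4, if_neg e5, if_neg e6, if_neg e7] at hS
  have hp : pii P = Sg N n0 (be P) 1 + Sg N n0 (be P) (-1) := split_ep N n0 (be P)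
  have k1 := sg_n0 N hO (be P) 1 (Or.inl rfl)
  have k2 := sg_n0 N hO (be P) (-1) (Or.inr rfl)
  rw [neg_neg] at k2
  by_cases hs : sgl n = 1
  · rw [sg_pos _ _ _ _ hn hi hs, hs, hp]
    rcases hε with rfl | rfl <;> linarith
  · have hs' : sgl n = -1 := (sgl_cases n).resolve_left hs
    rw [sg_neg _ _ _ _ hn hi hs, hs', hp]
    rcases hε with rfl | rfl <;> linarith

theorem t_SG1 : S_SG1 := by
  intro n hn hi
  have h1 : Sg 3 n0 2 1 = 1 := by decide +kernel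
  have h2 : Sg 3 n0 2 (-1) = 0 := by decide +kernel
  have h3 : Sg 3 n1 2 1 = 0 := by decide +kernel
  have h4 : Sg 3 n1 2 (-1) = -1 := by decide +kernel
  by_cases hs : sgl n = 1
  · rw [sg_pos _ _ _ _ hn hi hs, sg_pos _ _ _ _ hn hi hs, if_pos hs, if_pos hs]
    exact ⟨h1, h2⟩
  · rw [sg_neg _ _ _ _ hn hi hs, sg_neg _ _ _ _ hn hi hs, if_neg hs, if_neg hs]
    exact ⟨h3, h4⟩

end Pool.Agent.Z700
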