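import Pool.Agent.Z700.Defs2
import Pool.Agent.Y687.K2.Main2

/-!
# Twists of `X_0(14)` by products of split primes and an even number of inert primes

Second stage of the project Z700. The split primes are the primes `p = 1 mod 8` which are squares
modulo `7` (any residue modulo `3`), the inert primes are the primes `q = 5 mod 8` which are not
squares modulo `7`. A set `D` is admissible (`Gd D`) if it consists of such primes and the number of
inert primes is even, so that `pr D = 1 mod 8` is a square modulo `7`.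
-/

set_option autoImplicit false

namespace Pool.Agent.Z701

open Finset
open Pool.Agent.Z700 (V3 vec cp cp7 hh fac pr chi3 chv Ln n0 ep sgl od X2 Yd lres xres Fp cQ Fm psp
  ps3 un xrt Sol3)
open Pool.Agent.Y700 (PC Rt)

noncomputable section

/-- the split primes -/
def Sp (p : ℕ) : Prop := p.Prime ∧ p % 8 = 1 ∧ (p % 7 = 1 ∨ p % 7 = 2 ∨ p % 7 = 4)

/-- the inert primes -/
def Nr (p : ℕ) : Prop := p.Prime ∧ p % 8 = 5 ∧ (p % 7 = 3 ∨ p % 7 = 5 ∨ p % 7 = 6)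

/-- the split primes of a set -/
def spl (D : Finset ℕ) : Finset ℕ := D.filter fun p => p % 8 = 1

/-- the inert primes of a set -/
def inr (D : Finset ℕ) : Finset ℕ := D.filter fun p => p % 8 = 5

/-- the admissible sets -/
def Gd (D : Finset ℕ) : Prop := (∀ p ∈ D, Sp p ∨ Nr p) ∧ Even (inr D).card

/-- a square root of `p` or of `3 p = p / 3` (up to squares: `p = 3 sq7(p)²` if `p` is not a square)
modulo `7` -/
def sq7 (p : ℕ) : ZMod 7 := if p % 7 = 1 ∨ p % 7 = 3 then 1 else if p % 7 = 2 ∨ p % 7 = 6 then 3 else 2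

/-- a square root of `- 3 pr D` modulo `7`, for an admissible `D` -/
def be (D : Finset ℕ) : ZMod 7 := 2 * 3 ^ ((inr D).card / 2) * ∏ p ∈ D, sq7 p

/-- the Gross sum -/
def pii (D : Finset ℕ) : ℤ := ∑ v ∈ (vec (3 * (pr D : ℤ))).filter fun v => Ln n0 (be D) v, chv v

/-- the weight of a pair of vectors of norms `3 m1`, `3 m2` as a function of the inner product
(after cancellation) -/
def wt (m1 m2 : ℕ) (b : ℤ) : ℤ :=
  if b % 3 = 0 then (if m1 % 3 = m2 % 3 then chi3 (m1 * (b / 3)) else 0) else -chi3 b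

/-- the local densities away from `2`, with the count at `7` -/
def loc (n1 D : ℕ) : ℤ := Pool.Agent.Z700.loc n1 D

/-- the discriminant attached to `b` -/
def dis (D1 D2 : Finset ℕ) (b : ℤ) : ℕ := (9 * (pr D1 : ℤ) * (pr D2 : ℤ) - b ^ 2).toNat

/-- the arithmetic side of the bilinear identity -/
def RR (D1 D2 : Finset ℕ) : ℤ :=
  ∑ b ∈ (Ioo (-(9 * (pr D1 : ℤ) * (pr D2 : ℤ))) (9 * (pr D1 : ℤ) * (pr D2 : ℤ))).filter fun b : ℤ =>
    b % 4 = 1 ∧ (b : ZMod 7) = -(be D1 * be D2) ∧ 0 < dis D1 D2 b,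
    wt (pr D1) (pr D2) b * loc (3 * pr D1) (dis D1 D2 b)

/-- the pairs `D1, D2` for which the bilinear identity is used -/
def PairOK (D1 D2 : Finset ℕ) : Prop :=
  Gd D1 ∧ Gd D2 ∧ (Disjoint D1 D2 ∨ D1 = D2) ∧ (D1.Nonempty ∨ D2.Nonempty)

/-- the bilinear identity -/
def S_BIL : Prop := ∀ D1 D2 : Finset ℕ, PairOK D1 D2 → pii D1 * pii D2 = 6 * RR D1 D2

/-- the weighted number of the pairs with a common line -/
def DD (D1 D2 : Finset ℕ) (b : ℤ) : ℤ := Pool.Agent.Z700.DD (3 * (pr D1 : ℤ)) (3 * (pr D2 : ℤ))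
  (be D1) (be D2) b

/-- BIL1: the product of two Gross sums as a sum over pairs of vectors -/
def S_BIL1 : Prop := ∀ D1 D2 : Finset ℕ, PairOK D1 D2 →
  4 * (pii D1 * pii D2) =
    ∑ b ∈ (Ioo (-(9 * (pr D1 : ℤ) * (pr D2 : ℤ))) (9 * (pr D1 : ℤ) * (pr D2 : ℤ))).filter
      fun b : ℤ => b % 4 = 1, DD D1 D2 b

/-- SG: dependence of the sums on the line and the orientation -/
def S_SG : Prop := ∀ P : Finset ℕ, Gd P → P.Nonempty → ∀ n : Fin 3 → ZMod 7, n ≠ 0 →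
  n 0 ^ 2 + n 1 ^ 2 + n 2 ^ 2 = 0 → ∀ ε : ℤ, (ε = 1 ∨ ε = -1) →
  2 * Pool.Agent.Z700.Sg (3 * (pr P : ℤ)) n (be P) ε = sgl n * pii P

/-- BIL2A: weights and coincidences; here the case `3 ∣ b`, `pr D1` and `pr D2` different modulo `3`
is excluded (see CAN) -/
def S_BIL2A : Prop := ∀ D1 D2 : Finset ℕ, PairOK D1 D2 → ∀ b : ℤ,
  ((3 : ℤ) ∣ b → pr D1 % 3 = pr D2 % 3) →
  2 * DD D1 D2 b =
    if (b : ZMod 7) = -(be D1 * be D2) then
      wt (pr D1) (pr D2) b * (cp (3 * (pr D1 : ℤ)) b (3 * (pr D2 : ℤ)) +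
        cp7 (3 * (pr D1 : ℤ)) b (3 * (pr D2 : ℤ)) (be D1) (be D2)) else 0

/-- CAN: cancellation if `3 ∣ b` and `pr D1`, `pr D2` are different modulo `3`. (Pairs with
`v1 = λ v2 mod 3`, `λ = 1` and `λ = -1`, are equally many.) -/
def S_CAN : Prop := ∀ D1 D2 : Finset ℕ, PairOK D1 D2 → ∀ b : ℤ, b % 4 = 1 → (3 : ℤ) ∣ b →
  pr D1 % 3 ≠ pr D2 % 3 → DD D1 D2 b = 0

/-- BIL2B: evaluation of the counts -/
def S_BIL2B : Prop := ∀ D1 D2 : Finset ℕ, PairOK D1 D2 → ∀ b : ℤ, b % 4 = 1 →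
  (b : ZMod 7) = -(be D1 * be D2) →
  ((cp (3 * (pr D1 : ℤ)) b (3 * (pr D2 : ℤ)) +
    cp7 (3 * (pr D1 : ℤ)) b (3 * (pr D2 : ℤ)) (be D1) (be D2) : ℕ) : ℤ) =
    if 0 < dis D1 D2 b then 48 * loc (3 * pr D1) (dis D1 D2 b) else 0

/-! ### the sum over the genus characters -/

/-- the number of factors two in the sum over the genus characters -/
def ex (P : Finset ℕ) : ℕ := if inr P = ∅ then P.card else P.card - 1

open Classical in
/-- the admissible splittings -/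
def adm (P : Finset ℕ) : Finset (Finset ℕ) := P.powerset.filter fun D => Even (inr D).card

/-- GENb: the sum over all admissible factorizations for a fixed `b` -/
def S_GENb : Prop := ∀ P : Finset ℕ, Gd P → P.Nonempty → ∀ b : ℤ, Odd b →
  ∀ D : ℕ, 0 < D → (D : ℤ) = 9 * (pr P : ℤ) - b ^ 2 → Odd (D.factorization 2) →
  ∃ n : ℤ, ∑ D1 ∈ adm P, wt (pr D1) (pr (P \ D1)) b *
      ∏ l ∈ (D.primeFactors.erase 2).erase 7, fac (3 * pr D1) D l = 2 ^ ex P * n ∧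
    (Odd (D.factorization 7) → (Odd n ↔ (¬ (3 : ℤ) ∣ b ∧ ∃ y : ℕ, od D = y ^ 2 ∧
      (∀ p ∈ spl P, jacobiSym y p = 1) ∧
      ∀ q ∈ inr P, ∀ q' ∈ inr P, jacobiSym y q = jacobiSym y q')))

open Classical in
/-- the representations of `9 m` by `b² + 14 y²` which remain -/
def FixS (P : Finset ℕ) : Finset ℤ :=
  (Ioo (-(9 * (pr P : ℤ))) (9 * (pr P : ℤ))).filter fun b : ℤ =>
    b % 4 = 1 ∧ (b : ZMod 7) = -(2 * be P) ∧ ¬ (3 : ℤ) ∣ b ∧
    ∃ y ∈ range (9 * pr P), 9 * (pr P : ℤ) = b ^ 2 + 14 * (y : ℤ) ^ 2 ∧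
      (∀ p ∈ spl P, jacobiSym y p = 1) ∧ ∀ q ∈ inr P, ∀ q' ∈ inr P, jacobiSym y q = jacobiSym y q'

/-- GEN: the sum over all admissible factorizations -/
def S_GEN : Prop := ∀ P : Finset ℕ, Gd P → P.Nonempty →
  ∃ N : ℤ, ∑ D1 ∈ adm P, RR D1 (P \ D1) = 2 ^ ex P * N ∧ (Odd N ↔ Odd (FixS P).card)

/-- the number of inert primes which are nonresidues -/
def ind (S : Finset ℕ) (p : ℕ) : ℤ := ∑ q ∈ S, lres p q

/-- the Laplacian of the residue graph has kernel `{∅, P}` modulo two -/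
def KerT (P : Finset ℕ) : Prop := Pool.Agent.Z700.KerT P

open Classical in
/-- FIX0: the parity of the number of remaining representations, no inert primes -/
def S_FIX0 : Prop := ∀ P : Finset ℕ, (∀ p ∈ P, Sp p) → P.Nonempty →
  (Odd (FixS P).card ↔ (Odd (P.filter fun p => X2 p).card ∧ KerT P))

/-- FIX2: the parity of the number of remaining representations, two inert primes -/
def S_FIX2 : Prop := ∀ P : Finset ℕ, Gd P → (inr P).card = 2 →
  (Odd (FixS P).card ↔ Odd (Yd lres (ind (inr P)) (spl P)))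

/-! ### representations of `9 m` by `b² + 14 y²` -/

open Classical in
/-- SOLA0: existence, no inert primes -/
def S_SOLA0 : Prop := ∀ P : Finset ℕ, (∀ p ∈ P, Sp p) →
  ((Sol3 P).Nonempty ↔ Odd (P.filter fun p => X2 p).card)

/-- SOLA2: existence, two inert primes -/
def S_SOLA2 : Prop := ∀ P : Finset ℕ, Gd P → (inr P).card = 2 → (Sol3 P).Nonempty

/-- SOLB1: the flips at a split prime -/
def S_SOLB1 : Prop := ∀ P : Finset ℕ, Gd P → ∀ p ∈ spl P, ∀ q ∈ Sol3 P,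
  ∃ q' ∈ Sol3 P, (p : ℤ) ∣ q.1 * q'.2 + q'.1 * q.2 ∧
    (∀ r ∈ P, r ≠ p → (r : ℤ) ∣ q.1 * q'.2 - q'.1 * q.2) ∧
    (∀ r ∈ spl P, r ≠ p → jacobiSym q'.2 r = jacobiSym p r * jacobiSym q.2 r) ∧
    (X2 p → jacobiSym q'.1 7 = - jacobiSym q.1 7 ∧
      ∀ r ∈ inr P, jacobiSym q'.2 r = - (jacobiSym p r * jacobiSym q.2 r)) ∧
    (¬ X2 p → jacobiSym q'.1 7 = jacobiSym q.1 7 ∧
      ∀ r ∈ inr P, jacobiSym q'.2 r = jacobiSym p r * jacobiSym q.2 r)

/-- SOLB2: the flips at two inert primes -/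
def S_SOLB2 : Prop := ∀ P : Finset ℕ, Gd P → ∀ p ∈ inr P, ∀ p' ∈ inr P, p ≠ p' → ∀ q ∈ Sol3 P,
  ∃ q' ∈ Sol3 P, (p : ℤ) ∣ q.1 * q'.2 + q'.1 * q.2 ∧ (p' : ℤ) ∣ q.1 * q'.2 + q'.1 * q.2 ∧
    (∀ r ∈ P, r ≠ p → r ≠ p' → (r : ℤ) ∣ q.1 * q'.2 - q'.1 * q.2) ∧
    (∀ r ∈ spl P, jacobiSym q'.2 r = jacobiSym (p * p' : ℕ) r * jacobiSym q.2 r)

/-- SOLC: a representation is determined by the roots of `-14` it defines -/
def S_SOLC : Prop := ∀ P : Finset ℕ, Gd P → ∀ q ∈ Sol3 P, ∀ q' ∈ Sol3 P,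
  (∀ p ∈ P, (p : ℤ) ∣ q.1 * q'.2 - q'.1 * q.2) → q = q'

/-- SOLP: the product formula -/
def S_SOLP : Prop := ∀ P : Finset ℕ, Gd P → ∀ q ∈ Sol3 P,
  (∀ p ∈ P, jacobiSym q.2 p = 1 ∨ jacobiSym q.2 p = -1) ∧ ∏ p ∈ P, jacobiSym q.2 p = 1

/-- SOLT: the total flip changes the sign at `7` -/
def S_SOLT : Prop := ∀ P : Finset ℕ, Gd P → P.Nonempty → ∀ q ∈ Sol3 P, ∀ q' ∈ Sol3 P,
  (∀ p ∈ P, (p : ℤ) ∣ q.1 * q'.2 + q'.1 * q.2) → jacobiSym q'.1 7 = - jacobiSym q.1 7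

/-! ### the parity of the Gross sums -/

/-- IND: the parity of the Gross sum -/
def S_IND : Prop := ∀ P : Finset ℕ, Gd P → P.Nonempty →
  ∃ y : ℤ, pii P = 3 * 2 ^ ((spl P).card + (inr P).card / 2) * y ∧
    (Odd y ↔ Odd (Yd lres (fun p => xres p + ind (inr P) p) (spl P)))

/-! ### the indefinite side -/

/-- the divisor sum of the indefinite side -/
def WW (P : Finset ℕ) (S T : ℕ) : ℤ := Pool.Agent.Z700.WW P S T

/-- C1A: the forms and the cusps as factorizations -/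
def S_C1A : Prop := ∀ P : Finset ℕ, Gd P → P.Nonempty →
  ∑ u ∈ un (pr P), jacobiSym u (pr P) * Fp u (pr P) =
    -2 * ∑ T ∈ (range (3 * pr P)).filter (fun T => Odd T ∧ 7 ∣ T),
      ∑ a ∈ (3 * pr P - T).divisors.filter (2 ∣ ·), ∑ a' ∈ T.divisors.filter (7 ∣ ·),
        ps3 a a' ((3 * pr P - T) / a) (T / a') *
          ∑ u ∈ (un (pr P)).filter (fun u : ℕ => (pr P : ℤ) ∣ (a : ℤ) * (u : ℤ) + ((T / a' : ℕ) : ℤ) ∧
            (pr P : ℤ) ∣ (a' : ℤ) * (u : ℤ) - (((3 * pr P - T) / a : ℕ) : ℤ)), jacobiSym u (pr P)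

/-- C1B: the character sum over the cusps for a given matrix of determinant `3 m` -/
def S_C1B : Prop := ∀ P : Finset ℕ, Gd P → P.Nonempty → ∀ a a' X Y : ℕ,
  a * Y + a' * X = 3 * pr P →
  ∑ u ∈ (un (pr P)).filter (fun u : ℕ => (pr P : ℤ) ∣ (a : ℤ) * (u : ℤ) + (X : ℤ) ∧
    (pr P : ℤ) ∣ (a' : ℤ) * (u : ℤ) - (Y : ℤ)), jacobiSym u (pr P) = ∏ p ∈ P, psp p a a' Y X

/-- C1: the character sum of `Fp` as a sum of divisor sums -/
def S_C1 : Prop := ∀ P : Finset ℕ, Gd P → P.Nonempty →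
  ∑ u ∈ (range (pr P)).filter (fun u => Nat.Coprime u (pr P)), jacobiSym u (pr P) * Fp u (pr P) =
    -2 * ∑ T ∈ (range (3 * pr P)).filter (fun T => Odd T ∧ 7 ∣ T), WW P (3 * pr P - T) T

theorem c1_of (h1 : S_C1A) (h2 : S_C1B) : S_C1 := by
  intro P hP hne
  have k1 := h1 P hP hne
  have k0 : (range (pr P)).filter (fun u => Nat.Coprime u (pr P)) = un (pr P) := rfl
  rw [k0, k1]
  congr 1
  refine Finset.sum_congr rfl fun T hT => ?_
  rw [WW, Pool.Agent.Z700.WW]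
  refine Finset.sum_congr rfl fun a ha => ?_
  refine Finset.sum_congr rfl fun a' ha' => ?_
  congr 1
  have hT1 : T < 3 * pr P := Finset.mem_range.1 (Finset.mem_filter.1 hT).1
  have h3 : a ∣ 3 * pr P - T := Nat.dvd_of_mem_divisors (Finset.mem_filter.1 ha).1
  have h4 : a' ∣ T := Nat.dvd_of_mem_divisors (Finset.mem_filter.1 ha').1
  refine h2 P hP hne a a' (T / a') ((3 * pr P - T) / a) ?_
  rw [Nat.mul_div_cancel' h3, Nat.mul_div_cancel' h4]
  omega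

/-- C2: evaluation of the divisor sums -/
def S_C2 : Prop := ∀ P : Finset ℕ, Gd P → P.Nonempty → ∀ T : ℕ, Odd T → 7 ∣ T →
  T < 3 * pr P → WW P (3 * pr P - T) T =
    wt (pr P) (pr P) (3 * (pr P : ℤ) - 2 * T) * loc (3 * pr P) (4 * (3 * pr P - T) * T)

/-- DIAG: the character sum of `Fp` is a square up to a factor -/
def S_DIAG : Prop := ∀ P : Finset ℕ, Gd P → P.Nonempty →
  -3 * ∑ u ∈ (range (pr P)).filter (fun u => Nat.Coprime u (pr P)),
    jacobiSym u (pr P) * Fp u (pr P) = pii P ^ 2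

theorem bil_of (h1 : S_BIL1) (h2 : S_BIL2A) (h3 : S_CAN) (h4 : S_BIL2B) : S_BIL := by
  classical
  intro D1 D2 hOK
  have k1 := h1 D1 D2 hOK
  have k2 : ∀ b ∈ (Ioo (-(9 * (pr D1 : ℤ) * (pr D2 : ℤ)))
      (9 * (pr D1 : ℤ) * (pr D2 : ℤ))).filter fun b : ℤ => b % 4 = 1,
      DD D1 D2 b = if (b : ZMod 7) = -(be D1 * be D2) ∧ 0 < dis D1 D2 b then
      24 * (wt (pr D1) (pr D2) b * loc (3 * pr D1) (dis D1 D2 b)) else 0 := by
    intro b hb
    have hb4 : b % 4 = 1 := (Finset.mem_filter.1 hb).2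
    by_cases hc : (3 : ℤ) ∣ b → pr D1 % 3 = pr D2 % 3
    · have k3 := h2 D1 D2 hOK b hc
      by_cases hb7 : (b : ZMod 7) = -(be D1 * be D2)
      · have k4 := h4 D1 D2 hOK b hb4 hb7
        rw [if_pos hb7] at k3
        push_cast at k4
        rw [k4] at k3
        by_cases hD : 0 < dis D1 D2 b
        · rw [if_pos ⟨hb7, hD⟩]
          rw [if_pos hD] at k3
          linarith
        · rw [if_neg (fun h => hD h.2)]
          rw [if_neg hD] at k3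
          linarith
      · rw [if_neg (fun h => hb7 h.1)]
        rw [if_neg hb7] at k3
        linarith
    · push Not at hc
      obtain ⟨c1, c2⟩ := hc
      rw [h3 D1 D2 hOK b hb4 c1 c2]
      have h0 : wt (pr D1) (pr D2) b = 0 := by
        unfold wt
        rw [if_pos (Int.emod_eq_zero_of_dvd c1), if_neg c2]
      rw [h0]
      simp
  rw [Finset.sum_congr rfl k2, ← Finset.sum_filter, ← Finset.mul_sum, Finset.filter_filter] at k1
  have k3 : RR D1 D2 = ∑ b ∈ (Ioo (-(9 * (pr D1 : ℤ) * (pr D2 : ℤ)))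
      (9 * (pr D1 : ℤ) * (pr D2 : ℤ))).filter
      fun b : ℤ => b % 4 = 1 ∧ (b : ZMod 7) = -(be D1 * be D2) ∧ 0 < dis D1 D2 b,
      wt (pr D1) (pr D2) b * loc (3 * pr D1) (dis D1 D2 b) := rfl
  rw [← k3] at k1
  linarith

/-! ### the descent -/

open Classical in
/-- the diagonal part, in terms of the roots of `x² + 13 m x + 128 m²`, `m = pr S` -/
def xrS (S : Finset ℕ) (p : ℕ) : ℤ := if Rt p (pr S) then 1 else 0

/-- the hypotheses of the descent (any number of inert primes) -/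
def HyS (P S : Finset ℕ) : Prop := P.Nonempty ∧ (∀ p ∈ P, Sp p) ∧ (∀ q ∈ S, Nr q) ∧
  Odd (Yd lres (xrS S) P)

/-- SELA: the first isogeny Selmer set -/
def S_SELA : Prop := ∀ P S : Finset ℕ, HyS P S → ∀ z : ℤ, Squarefree z → 0 < z →
  (∀ (l : ℕ) [Fact l.Prime], PC (13 * ((pr P * pr S : ℕ) : ℤ)) (128 * ((pr P * pr S : ℕ) : ℤ) ^ 2)
    l z) → z = 1 ∨ z = 2

/-- SELB: the second isogeny Selmer set -/
def S_SELB : Prop := ∀ P S : Finset ℕ, HyS P S → ∀ z : ℤ, Squarefree z →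
  (∀ (l : ℕ) [Fact l.Prime], PC (-2 * (13 * ((pr P * pr S : ℕ) : ℤ)))
    ((13 * ((pr P * pr S : ℕ) : ℤ)) ^ 2 - 4 * (128 * ((pr P * pr S : ℕ) : ℤ) ^ 2)) l z) →
    z = 1 ∨ z = -7

/-- RTE: the roots and the number of points of the twist -/
def S_RTE : Prop := ∀ p : ℕ, Sp p → ∀ S : Finset ℕ, (∀ q ∈ S, Nr q) →
  (Rt p (pr S) ↔ ¬ 8 ∣ Pool.Agent.Y687.NN (pr S) p)

/-- XRS: the roots for the twist and for the curve -/
def S_XRS : Prop := ∀ p : ℕ, Sp p → ∀ S : Finset ℕ, (∀ q ∈ S, Nr q) →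
  (Odd (xrS S p) ↔ Odd (xrt p + ind S p))

/-- EXI: existence of inert primes to be added -/
def S_EXI : Prop := ∀ P S : Finset ℕ, (∀ p ∈ P, Sp p) → (∀ q ∈ S, Nr q) →
  {q : ℕ | Nr q ∧ q ∉ S ∧ Odd (Yd lres (xrS (insert q S)) P)}.Infinite

end

end Pool.Agent.Z701
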