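import Pool.Agent.Z700.Defs
import Pool.Agent.Y700.Defs2

/-!
# Many split primes: the algebraic statements
-/

set_option autoImplicit false

namespace Pool.Agent.Z700

open Finset
open Pool.Agent.Y700 (PC Rt)

noncomputable section

open Classical in
/-- the diagonal part, in terms of the roots of `x² + 13 x + 128` -/
def xrt (p : ℕ) : ℤ := if Rt p 1 then 1 else 0

/-- the hypotheses of the descent -/
def Hyk (P : Finset ℕ) : Prop := P.Nonempty ∧
  (∀ p ∈ P, p.Prime ∧ p % 8 = 1 ∧ (p % 7 = 1 ∨ p % 7 = 2 ∨ p % 7 = 4)) ∧ Odd (Yd lres xrt P)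

/-- SELA: the first isogeny Selmer set -/
def S_SELA : Prop := ∀ P : Finset ℕ, Hyk P → ∀ z : ℤ, Squarefree z → 0 < z →
  (∀ (l : ℕ) [Fact l.Prime], PC (13 * (pr P : ℤ)) (128 * (pr P : ℤ) ^ 2) l z) → z = 1 ∨ z = 2

/-- SELB: the second isogeny Selmer set -/
def S_SELB : Prop := ∀ P : Finset ℕ, Hyk P → ∀ z : ℤ, Squarefree z →
  (∀ (l : ℕ) [Fact l.Prime], PC (-2 * (13 * (pr P : ℤ)))
    ((13 * (pr P : ℤ)) ^ 2 - 4 * (128 * (pr P : ℤ) ^ 2)) l z) → z = 1 ∨ z = -7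

/-- the number of points of the curve `y² = x³ + 5805 x - 285714` modulo `p` (a model of `X_0(14)`) -/
def NE (p : ℕ) : ℕ :=
  Nat.card {q : ZMod p × ZMod p // q.2 ^ 2 = q.1 ^ 3 + 5805 * q.1 - 285714} + 1

/-- RTE: full divisibility of the number of points by 8 and the roots -/
def S_RTE : Prop := ∀ p : ℕ, p.Prime → p % 8 = 1 → (p % 7 = 1 ∨ p % 7 = 2 ∨ p % 7 = 4) →
  (Rt p 1 ↔ ¬ 8 ∣ NE p)

/-- EX: an explicit prime of the family with `8 ∤ #E(F_p)` -/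
def S_EX : Prop := Fam 193 ∧ Rt 193 1

/-- EXI: existence of sets of primes with odd determinant, for every cardinality; `x` is arbitrary
away from one prime -/
def S_EXI : Prop := ∀ x : ℕ → ℤ, (∀ p, x p = 0 ∨ x p = 1) → (∃ p, Fam p ∧ x p = 1) →
  ∀ k : ℕ, 2 ≤ k → {P : Finset ℕ | P.card = k ∧ (∀ p ∈ P, Fam p) ∧ Odd (Yd lres x P)}.Infinite

end

end Pool.Agent.Z700
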