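import Mathlib
import Pool.Agent.Z700.Defs

/-!
# The assembly of the diagonal identity
-/

set_option autoImplicit false

namespace Pool.Agent.Z700

open Finset

theorem diag_mod24 {P : Finset ℕ} (hP : ∀ p ∈ P, Fam p) : pr P % 24 = 1 := by
  unfold pr
  refine Finset.prod_induction _ (fun x : ℕ => x % 24 = 1) ?_ rfl ?_
  · intro a b ha hb
    rw [Nat.mul_mod, ha, hb]
  · intro p hp
    exact (hP p hp).2.1

theorem diag_sq7 {p : ℕ} (hp : Fam p) : sq7 p * sq7 p = (p : ZMod 7) := by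
  have h : (p : ZMod 7) = ((p % 7 : ℕ) : ZMod 7) := (ZMod.natCast_mod p 7).symm
  unfold sq7
  rcases hp.2.2 with h1 | h1 | h1
  · rw [h, h1]
    decide
  · rw [h, h1]
    decide
  · rw [h, h1]
    decide

theorem diag_be {P : Finset ℕ} (hP : ∀ p ∈ P, Fam p) :
    -(be P * be P) = 3 * (pr P : ZMod 7) := by
  have h1 : be P * be P = 4 * (pr P : ZMod 7) := by
    unfold be pr
    rw [Nat.cast_prod, ← Finset.prod_congr rfl (fun p hp => diag_sq7 (hP p hp)),
      Finset.prod_mul_distrib]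
    ring
  rw [h1]
  have h7 : (7 : ZMod 7) = 0 := by decide
  linear_combination (-(pr P : ZMod 7)) * h7

theorem diag_iff {P : Finset ℕ} (hP : ∀ p ∈ P, Fam p) (b : ℤ) :
    (b : ZMod 7) = -(be P * be P) ↔ (7 : ℤ) ∣ 3 * (pr P : ℤ) - b := by
  rw [diag_be hP]
  have h := ZMod.intCast_eq_intCast_iff_dvd_sub b (3 * (pr P : ℤ)) 7
  push_cast at h
  exact h

theorem diag_RR {P : Finset ℕ} (hP : ∀ p ∈ P, Fam p) :
    ∑ T ∈ (range (3 * pr P)).filter (fun T => Odd T ∧ 7 ∣ T),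
      wt (3 * (pr P : ℤ) - 2 * T) * loc (3 * pr P) (4 * (3 * pr P - T) * T) = RR P P := by
  have hm := diag_mod24 hP
  have hm1 : 1 ≤ pr P := by omega
  unfold RR
  refine Finset.sum_nbij (fun T : ℕ => 3 * (pr P : ℤ) - 2 * T) ?_ ?_ ?_ ?_
  · intro T hT
    rw [mem_filter, mem_range] at hT
    obtain ⟨h1, ⟨k, hk⟩, l, hl⟩ := hT
    rw [mem_filter, mem_Ioo]
    have hM : (1 : ℤ) ≤ (pr P : ℤ) := by exact_mod_cast hm1
    have h1' : (T : ℤ) < 3 * (pr P : ℤ) := by exact_mod_cast h1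
    have h2' : (0 : ℤ) < T := by
      have : 0 < T := by omega
      exact_mod_cast this
    refine ⟨⟨by nlinarith, by nlinarith⟩, by omega, ?_, ?_⟩
    · rw [diag_iff hP]
      refine ⟨2 * l, ?_⟩
      rw [hl]
      push_cast
      ring
    · unfold dis
      rw [Int.lt_toNat]
      push_cast
      nlinarith
  · intro T _ T' _ h
    have h' : 3 * (pr P : ℤ) - 2 * (T : ℤ) = 3 * (pr P : ℤ) - 2 * (T' : ℤ) := h
    omega
  · intro b hb
    rw [mem_coe, mem_filter, mem_Ioo] at hb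
    obtain ⟨-, h4, h7, hd⟩ := hb
    rw [diag_iff hP] at h7
    unfold dis at hd
    rw [Int.lt_toNat] at hd
    push_cast at hd
    have hM : (1 : ℤ) ≤ (pr P : ℤ) := by exact_mod_cast hm1
    have hb1 : b < 3 * (pr P : ℤ) := by nlinarith
    have hb2 : -(3 * (pr P : ℤ)) < b := by nlinarith
    refine ⟨((3 * (pr P : ℤ) - b) / 2).toNat, ?_, ?_⟩
    · rw [mem_coe, mem_filter, mem_range]
      refine ⟨by omega, ?_, by omega⟩
      rw [Nat.odd_iff]
      omega
    · change 3 * (pr P : ℤ) - 2 * ((((3 * (pr P : ℤ) - b) / 2).toNat : ℕ) : ℤ) = b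
      omega
  · intro T hT
    rw [mem_filter, mem_range] at hT
    obtain ⟨h1, -, -⟩ := hT
    have h2 : dis P P (3 * (pr P : ℤ) - 2 * T) = 4 * (3 * pr P - T) * T := by
      unfold dis
      have h3 : 9 * (pr P : ℤ) * (pr P : ℤ) - (3 * (pr P : ℤ) - 2 * T) ^ 2 =
          ((4 * (3 * pr P - T) * T : ℕ) : ℤ) := by
        rw [Nat.cast_mul, Nat.cast_mul, Nat.cast_sub h1.le]
        push_cast
        ring
      rw [h3, Int.toNat_natCast]
    rw [h2]

theorem t_DIAG (hb : S_BIL) (h1 : S_C1) (h2 : S_C2) : S_DIAG := by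
  intro P hP hne
  rw [h1 P hP hne]
  have k1 := hb P hP P subset_rfl P subset_rfl (Or.inr rfl) (Or.inl hne)
  have k2 : ∑ T ∈ (range (3 * pr P)).filter (fun T => Odd T ∧ 7 ∣ T), WW P (3 * pr P - T) T =
      RR P P := by
    rw [← diag_RR hP]
    refine Finset.sum_congr rfl fun T hT => ?_
    rw [mem_filter, mem_range] at hT
    exact h2 P hP hne T hT.2.1 hT.2.2 hT.1
  rw [k2, sq, k1]
  ring

end Pool.Agent.Z700
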