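import Pool.Agent.Z700.Main
import Pool.Agent.Z700.EV
import Pool.Agent.Z700.JAC
import Pool.Agent.Z700.SG
import Pool.Agent.Z700.BIL2B
import Pool.Agent.Z700.DIAG
import Pool.Agent.Y288.Z7.Cnt
import Pool.Agent.Y155.Z7.XC
import Pool.Agent.Z419.Bil1
import Pool.Agent.Z994.BIL2A
import Pool.Agent.Z927.GENb
import Pool.Agent.Z419.Gen
import Pool.Agent.Z125.SOLB
import Pool.Agent.Y563.Z.Sola
import Pool.Agent.Y931.Z700.SolCP
import Pool.Agent.Y165.Z.Fix2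
import Pool.Agent.Z179.TREE
import Pool.Agent.Y232.ZI.Ind
import Pool.Agent.Y681.Z7.Sym
import Pool.Agent.Z434.C1A
import Pool.Agent.Z125.C1B
import Pool.Agent.Y574.Z7.C2
import Pool.Agent.Y664.Z.Sela
import Pool.Agent.Y665.SELB.Selb
import Pool.Agent.Y655.Z7.Rte
import Pool.Agent.Y931.Z700.Exi

/-!
# Many split primes: all the parts together
-/

set_option autoImplicit false

namespace Pool.Agent.Z700

theorem f_PC : S_PC := pc_of Pool.Agent.Y288.Z7.t_CNT' Pool.Agent.Y155.Z7.t_XC t_EV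

theorem f_BIL : S_BIL := bil_of' (Pool.Agent.Z419.t_BIL1 (t_SG t_JAC) t_SG1)
  Pool.Agent.Z994.t_BIL2A (t_BIL2B f_PC)

theorem f_GEN : S_GEN := Pool.Agent.Z419.Gen.t_GEN Pool.Agent.Z927.t_GENb

theorem f_FIX : S_FIX := Pool.Agent.Y165.Z.t_FIX Pool.Agent.Y563.Z.t_SOLA Pool.Agent.Z125.t_SOLB
  Pool.Agent.Y931.Z700.t_SOLC Pool.Agent.Y931.Z700.t_SOLP

theorem f_IND : S_IND := Pool.Agent.Y232.ZI.t_IND t_SG1 f_BIL f_GEN f_FIX Pool.Agent.Z179.t_TREE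

theorem f_C1 : S_C1 := c1_of Pool.Agent.Z434.C1A.t_C1A Pool.Agent.Z125.t_C1B

theorem f_DIAG : S_DIAG := t_DIAG f_BIL f_C1 Pool.Agent.Y574.Z7.t_C2

theorem f_SYM : S_SYM := fun _ _ h h5 => Pool.Agent.Y681.Z7.t_SYM h h5

end Pool.Agent.Z700
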