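import Pool.Agent.Z700.Defs2
import Pool.Agent.Y700.Fin2
import Pool.Agent.Y687.K2.DescAB
import Pool.Agent.Y687.K2.RankForm

/-!
# Finitely many rational points from the isogeny Selmer sets
-/

set_option autoImplicit false
set_option linter.style.haveILetI false

open Finset

namespace Pool.Agent.Z700

open Pool.Agent.Y700 (PC Rt)

/-- finiteness of the set of rational points of the short model -/
theorem finite_of_sel {M : ℕ} (hM : M ≠ 0)
    (s1 : ∀ z : ℤ, Squarefree z → 0 < z →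
      (∀ (l : ℕ) [Fact l.Prime], PC (13 * (M : ℤ)) (128 * (M : ℤ) ^ 2) l z) → z = 1 ∨ z = 2)
    (s2 : ∀ z : ℤ, Squarefree z → (∀ (l : ℕ) [Fact l.Prime], PC (-2 * (13 * (M : ℤ)))
      ((13 * (M : ℤ)) ^ 2 - 4 * (128 * (M : ℤ) ^ 2)) l z) → z = 1 ∨ z = -7) :
    {q : ℚ × ℚ | q.2 ^ 2 = q.1 ^ 3 + ((5805 * (M : ℤ) ^ 2 : ℤ) : ℚ) * q.1 +
      ((-285714 * (M : ℤ) ^ 3 : ℤ) : ℚ)}.Finite := by
  have hM0 : (M : ℚ) ≠ 0 := by exact_mod_cast hM
  have hMM : 0 < (M : ℚ) ^ 2 := by positivity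
  refine Pool.Agent.Y687.finite_set_of_class hM ?_ ?_
  · intro x y hx h
    obtain ⟨d, w, e, N, h1, h2, h3, h4, h5, h6⟩ := Pool.Agent.Y687.hom_space (13 * (M : ℤ))
      (128 * (M : ℤ) ^ 2) (X := x) (Y := y) hx (by rw [h]; push_cast; ring)
    have he : (e : ℚ) ≠ 0 := by exact_mod_cast h2.ne'
    have hw : (w : ℚ) ≠ 0 := by exact_mod_cast h3
    have hq : 0 < x ^ 2 + 13 * (M : ℚ) * x + 128 * (M : ℚ) ^ 2 := by
      nlinarith [sq_nonneg (2 * x + 13 * (M : ℚ))]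
    have hy0 : y ≠ 0 := by
      rintro rfl
      have h7 : x * (x ^ 2 + 13 * (M : ℚ) * x + 128 * (M : ℚ) ^ 2) = 0 := by rw [← h]; ring
      rcases mul_eq_zero.1 h7 with h8 | h8
      · exact hx h8
      · exact hq.ne' h8
    have hy2 : 0 < y ^ 2 := by positivity
    have hxp : 0 < x := by
      by_contra hneg
      have h8 : x ≤ 0 := not_lt.1 hneg
      have h9 : x * (x ^ 2 + 13 * (M : ℚ) * x + 128 * (M : ℚ) ^ 2) ≤ 0 :=
        mul_nonpos_of_nonpos_of_nonneg h8 hq.le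
      linarith
    have hd : 0 < d := by
      have h7 : (0 : ℚ) < d := by
        by_contra hneg
        have h8 : (d : ℚ) ≤ 0 := not_lt.1 hneg
        have h9 : x * (e : ℚ) ^ 2 = d * (w : ℚ) ^ 2 := by rw [h5]; field_simp
        have h10 : 0 < x * (e : ℚ) ^ 2 := by positivity
        have h11 : (d : ℚ) * (w : ℚ) ^ 2 ≤ 0 :=
          mul_nonpos_of_nonpos_of_nonneg h8 (by positivity)
        linarith
      exact_mod_cast h7
    have hpc : ∀ (l : ℕ) [Fact l.Prime], PC (13 * (M : ℤ)) (128 * (M : ℤ) ^ 2) l d := by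
      intro l _
      refine ⟨(x : ℚ_[l]), (y : ℚ_[l]), by exact_mod_cast hy0, ?_, ?_⟩
      · have h7 : (y : ℚ) ^ 2 = x ^ 3 + ((13 * (M : ℤ) : ℤ) : ℚ) * x ^ 2 +
            ((128 * (M : ℤ) ^ 2 : ℤ) : ℚ) * x := by
          rw [h]; push_cast; ring
        exact_mod_cast h7
      · refine ⟨((d * w / e : ℚ) : ℚ_[l]), ?_⟩
        have h7 : x * (d : ℚ) = (d * w / e) * (d * w / e) := by rw [h5]; field_simp
        have h8 := congrArg (fun t : ℚ => (t : ℚ_[l])) h7
        rw [Rat.cast_mul, Rat.cast_mul, Rat.cast_intCast] at h8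
        exact h8
    rcases s1 d h1 hd hpc with rfl | rfl
    · left
      refine ⟨w / e, ?_⟩
      rw [h5]
      push_cast
      field_simp
    · right
      refine ⟨2 * w / e, ?_⟩
      rw [h5]
      push_cast
      field_simp
  · intro u v h
    have hu0 : u ≠ 0 := by
      rintro rfl
      have h7 : v ^ 2 = 128 * (M : ℚ) ^ 2 := by rw [h]; ring
      have h8 : IsSquare ((128 * (M : ℤ) ^ 2 : ℤ) : ℚ) := ⟨v, by push_cast; rw [← h7]; ring⟩
      refine Pool.Agent.Y700.not_sq_aux 128 (by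
        rintro ⟨r, hr⟩
        have k1 : r < 12 := by nlinarith
        have k2 : -12 < r := by nlinarith
        interval_cases r <;> omega) (n := (M : ℤ)) (by exact_mod_cast hM) h8
    have hprod : (13 * (M : ℚ) + 2 * u ^ 2 + 2 * v) *
        (13 * (M : ℚ) + 2 * u ^ 2 - 2 * v) = -343 * (M : ℚ) ^ 2 := by
      linear_combination (-4 : ℚ) * h
    obtain ⟨X, hX⟩ : ∃ X, X = 13 * (M : ℚ) + 2 * u ^ 2 + 2 * v := ⟨_, rfl⟩
    have hX0 : X ≠ 0 := by
      rintro rfl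
      rw [← hX, zero_mul] at hprod
      have : 343 * (M : ℚ) ^ 2 = 0 := by linear_combination hprod
      rcases mul_eq_zero.1 this with h1 | h1
      · norm_num at h1
      · exact pow_ne_zero 2 hM0 h1
    have hXY : (2 * u * X) ^ 2 = X * (X ^ 2 + ((-26 * (M : ℤ) : ℤ) : ℚ) * X +
        ((-343 * (M : ℤ) ^ 2 : ℤ) : ℚ)) := by
      rw [hX]
      push_cast at h ⊢
      linear_combination (-4 * (13 * (M : ℚ) + 2 * u ^ 2 + 2 * v)) * h
    obtain ⟨d, w, e, N, h1, h2, h3, h4, h5, h6⟩ := Pool.Agent.Y687.hom_space (-26 * (M : ℤ))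
      (-343 * (M : ℤ) ^ 2) (X := X) (Y := 2 * u * X) hX0 hXY
    have he : (e : ℚ) ≠ 0 := by exact_mod_cast h2.ne'
    have hw : (w : ℚ) ≠ 0 := by exact_mod_cast h3
    have hpc : ∀ (l : ℕ) [Fact l.Prime], PC (-2 * (13 * (M : ℤ)))
        ((13 * (M : ℤ)) ^ 2 - 4 * (128 * (M : ℤ) ^ 2)) l d := by
      intro l _
      refine ⟨(X : ℚ_[l]), ((2 * u * X : ℚ) : ℚ_[l]), ?_, ?_, ?_⟩
      · have : 2 * u * X ≠ 0 := mul_ne_zero (mul_ne_zero two_ne_zero hu0) hX0
        exact_mod_cast this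
      · have h7 : (2 * u * X : ℚ) ^ 2 = X ^ 3 + ((-2 * (13 * (M : ℤ)) : ℤ) : ℚ) * X ^ 2 +
            (((13 * (M : ℤ)) ^ 2 - 4 * (128 * (M : ℤ) ^ 2) : ℤ) : ℚ) * X := by
          rw [hXY]; push_cast; ring
        exact_mod_cast h7
      · refine ⟨((d * w / e : ℚ) : ℚ_[l]), ?_⟩
        have h7 : X * (d : ℚ) = (d * w / e) * (d * w / e) := by rw [h5]; field_simp
        have h8 := congrArg (fun t : ℚ => (t : ℚ_[l])) h7
        rw [Rat.cast_mul, Rat.cast_mul, Rat.cast_intCast] at h8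
        exact h8
    rcases s2 d h1 hpc with rfl | rfl
    · left
      refine ⟨w / e, ?_⟩
      rw [← hX, h5]
      push_cast
      field_simp
    · right
      refine ⟨7 * (M : ℚ) * e / w, ?_⟩
      rw [← hX, h5] at hprod
      push_cast at hprod ⊢
      field_simp at hprod ⊢
      linear_combination (-1 : ℚ) * hprod / 7

end Pool.Agent.Z700
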