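import Pool.Agent.Z700.Ana
import Pool.Agent.Z700.Alg

/-!
# Many split primes: the assembly
-/

set_option autoImplicit false
set_option linter.style.haveILetI false

open Finset

namespace Pool.Agent.Z700

open Pool.Agent.W97.MT (ap E14 affCount IsGloballyMinimal)
open Pool.Agent.Y687 (SS Symb2 Symb rr mem_rr chi cnt)
open Pool.Agent.Y700 (PC Rt WM EQ Omega tamProd IsL S_E0 S_TIN S_TSP S_T2 S_T7 S_OMEGA S_MIN)

theorem ap5 : ap E14 5 = 0 := by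
  have h := Pool.Agent.Y687.cnt_E14 5 (by norm_num) (by norm_num) (by norm_num)
  have h2 : cnt 5805 (-285714) 5 = 5 := by
    unfold cnt
    rw [Nat.card_eq_fintype_card]
    have e1 : ((5805 : ℤ) : ZMod 5) = 0 := by decide
    have e2 : ((-285714 : ℤ) : ZMod 5) = 1 := by decide
    simp only [e1, e2]
    decide
  rw [h2] at h
  simpa using h.symm

theorem Yd_singleton (l : ℕ → ℕ → ℤ) (x : ℕ → ℤ) (p : ℕ) : Yd l x {p} = x p := by
  unfold Yd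
  have hp : p ∈ ({p} : Finset ℕ) := Finset.mem_singleton_self p
  letI : Unique ({p} : Finset ℕ) := ⟨⟨⟨p, hp⟩⟩, by rintro ⟨q, hq⟩; ext; simpa using hq⟩
  rw [Matrix.det_unique]
  show (if (⟨p, hp⟩ : ({p} : Finset ℕ)) = ⟨p, hp⟩ then
    (∑ k ∈ ({p} : Finset ℕ).erase p, l p k) + x p else -l p p) = x p
  simp

theorem Yd_congr {l : ℕ → ℕ → ℤ} {x x' : ℕ → ℤ} {P : Finset ℕ} (h : ∀ p ∈ P, x p = x' p) :
    Yd l x P = Yd l x' P := by
  unfold Yd
  congr 1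
  ext i j
  simp only [Matrix.of_apply]
  rw [h i.1 i.2]

/-- `2 m` primes of the family -/
theorem NE_mod {p : ℕ} (hp : p.Prime) (h8 : p % 8 = 1) :
    (8 ∣ NE p) ↔ (8 : ℤ) ∣ ap E14 p - 2 := by
  have h1 := Pool.Agent.Y687.cnt_E14 p hp (by omega) (by omega)
  have h2 : NE p = cnt 5805 (-285714) p + 1 := by
    unfold NE cnt
    congr 1
    refine Nat.card_congr (Equiv.subtypeEquivRight fun q => ?_)
    push_cast
    rw [← sub_eq_add_neg]
  rw [h2, ← h1]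
  omega

/-- the parity condition at a prime -/
theorem x_eq (hS : S_SYM) (hD : S_DIAG) (hI : S_IND) (hR : S_RTE) {p : ℕ} (hp : Fam p) :
    xres p = xrt p := by
  classical
  obtain ⟨s, Op, hOp, hs, hv⟩ := Pool.Agent.Y687.exists_symb2
  have hp8 : p % 8 = 1 := by have := hp.2.1; omega
  have hsp : Pool.Agent.Y687.Split p := ⟨hp.1, hp8, hp.2.2⟩
  obtain ⟨-, -, k1, k2⟩ := Pool.Agent.Y687.split_sp hsp
  have hP : ∀ q ∈ ({p} : Finset ℕ), Fam q := by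
    intro q hq; rw [Finset.mem_singleton] at hq; rw [hq]; exact hp
  have e1 := SS_eq hS hD hs ap5 hP (Finset.singleton_nonempty p)
  obtain ⟨y, e2, e3⟩ := hI {p} hP (Finset.singleton_nonempty p)
  rw [Finset.card_singleton, pow_one] at e2
  rw [Yd_singleton] at e3
  have e4 := Pool.Agent.Y687.sum_split hs.toSymb p hp.1 hp8 k1 k2 ∅ (by simp) (by simp)
  have e5 : pr {p} = p := by unfold pr; simp
  rw [e5, e2] at e1
  simp only [Finset.card_empty, Finset.prod_empty, mul_one, pow_zero, one_mul, zero_add,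
    jacobiSym.one_right] at e4
  rw [e1] at e4
  obtain ⟨k, hk⟩ := hs.odd0
  have hiff : Odd y ↔ ¬ (8 : ℤ) ∣ ap E14 p - 2 := by
    have e6 : (8 : ℤ) ∣ 4 * y ^ 2 - (ap E14 p - 2) := by
      have e7 : s 0 * (3 * 2 * y) ^ 2 = 4 * y ^ 2 + 8 * ((9 * k + 4) * y ^ 2) := by
        rw [hk]; ring
      rw [e7] at e4
      have e8 : (8 : ℤ) ∣ 8 * ((9 * k + 4) * y ^ 2) := Dvd.intro _ rfl
      have e9 := dvd_sub (by simpa using e4) e8
      have e10 : 4 * y ^ 2 + 8 * ((9 * k + 4) * y ^ 2) - (ap E14 p - 2) -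
          8 * ((9 * k + 4) * y ^ 2) = 4 * y ^ 2 - (ap E14 p - 2) := by ring
      rw [e10] at e9
      exact e9
    constructor
    · rintro ⟨j, hj⟩ h8
      have h9 := dvd_add e6 h8
      have h10 : 4 * y ^ 2 - (ap E14 p - 2) + (ap E14 p - 2) = 4 + 8 * (2 * j ^ 2 + 2 * j) := by
        rw [hj]; ring
      rw [h10] at h9
      omega
    · intro h8
      rw [← Int.not_even_iff_odd]
      rintro ⟨j, hj⟩
      apply h8
      have h10 : ap E14 p - 2 = 8 * (2 * j ^ 2) - (4 * y ^ 2 - (ap E14 p - 2)) := by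
        rw [hj]; ring
      rw [h10]
      exact dvd_sub (Dvd.intro _ rfl) e6
  rw [e3, ← NE_mod hp.1 hp8, ← hR p hp.1 hp8 hp.2.2] at hiff
  unfold xres xrt at *
  by_cases h1 : X2 p <;> by_cases h2 : Rt p 1 <;> simp_all

/-- the determinants agree -/
theorem Yd_eq (hS : S_SYM) (hD : S_DIAG) (hI : S_IND) (hR : S_RTE) {P : Finset ℕ}
    (hP : ∀ p ∈ P, Fam p) : Yd lres xres P = Yd lres xrt P :=
  Yd_congr fun p hp => x_eq hS hD hI hR (hP p hp)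

/-- the exact power of two -/
theorem SS_val (hS : S_SYM) (hD : S_DIAG) (hI : S_IND) {P : Finset ℕ} (hP : ∀ p ∈ P, Fam p)
    (hne : P.Nonempty) (hY : Odd (Yd lres xres P)) {s : ℚ → ℤ} {a : ℕ → ℤ} (h : Symb2 s a)
    (h5 : a 5 = 0) : ∃ o : ℤ, Odd o ∧ SS s (pr P) (pr P) = 2 ^ (2 * P.card) * o := by
  obtain ⟨y, e2, e3⟩ := hI P hP hne
  have hy := e3.2 hY
  refine ⟨s 0 * 9 * y ^ 2, (h.odd0.mul (by decide)).mul hy.pow, ?_⟩
  rw [SS_eq hS hD h h5 hP hne, e2, pow_mul]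
  have : (2 : ℤ) ^ 2 = 4 := by norm_num
  rw [this]
  have h4 : (4 : ℤ) ^ P.card = (2 ^ P.card) ^ 2 := by
    rw [← pow_mul, mul_comm, pow_mul]; norm_num
  rw [h4]
  ring

theorem pr_facts {P : Finset ℕ} (hP : ∀ p ∈ P, Fam p) (hne : P.Nonempty) :
    (∀ p ∈ P, p.Prime) ∧ pr P % 4 = 1 ∧ 1 < pr P ∧ Squarefree (pr P) ∧ Nat.Coprime (pr P) 42 := by
  have hPp : ∀ p ∈ P, p.Prime := fun p hp => (hP p hp).1
  have h24 : pr P % 24 = 1 := pr_mod (n := 24) fun p hp => (hP p hp).2.1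
  refine ⟨hPp, by omega, one_lt_pr hPp hne, pr_sqf hPp, ?_⟩
  have key : ∀ l : ℕ, l.Prime → l ∉ P → Nat.Coprime (pr P) l := by
    intro l hl h1
    rw [Nat.coprime_comm, Nat.Prime.coprime_iff_not_dvd hl]
    exact fun h => h1 (mem_of_dvd_pr hPp hl h)
  rw [show (42 : ℕ) = 2 * 3 * 7 by norm_num]
  refine Nat.Coprime.mul_right (Nat.Coprime.mul_right (key 2 Nat.prime_two ?_)
    (key 3 Nat.prime_three ?_)) (key 7 (by norm_num) ?_)
  · intro h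
    have := (hP 2 h).2.1
    omega
  · intro h
    have := (hP 3 h).2.1
    omega
  · intro h
    have := (hP 7 h).2.2
    omega

theorem hyk_of {P : Finset ℕ} (hP : ∀ p ∈ P, Fam p) (hne : P.Nonempty)
    (hY : Odd (Yd lres xrt P)) : Hyk P :=
  ⟨hne, fun p hp => ⟨(hP p hp).1, by have := (hP p hp).2.1; omega, (hP p hp).2.2⟩, hY⟩

/-- nonvanishing and finiteness -/
theorem weak (hS : S_SYM) (hD : S_DIAG) (hI : S_IND) (hR : S_RTE) (hA : S_SELA) (hB : S_SELB)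
    {P : Finset ℕ} (hP : ∀ p ∈ P, Fam p) (hne : P.Nonempty) (hY : Odd (Yd lres xrt P)) :
    (∃ f : ℂ → ℂ, Differentiable ℂ f ∧
      (∀ s : ℂ, (3 : ℝ) / 2 < s.re →
        HasProd (fun l : {l : ℕ // l.Prime ∧
            ¬ ((l : ℤ) ∣ 2 * (4 * (5805 * (pr P : ℤ) ^ 2) ^ 3 +
              27 * (-285714 * (pr P : ℤ) ^ 3) ^ 2))} =>
          Pool.Agent.Y687.fac (5805 * (pr P : ℤ) ^ 2) (-285714 * (pr P : ℤ) ^ 3) s l)
          (f s)) ∧ f 1 ≠ 0) ∧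
    {q : ℚ × ℚ | q.2 ^ 2 = q.1 ^ 3 + ((5805 * (pr P : ℤ) ^ 2 : ℤ) : ℚ) * q.1 +
      ((-285714 * (pr P : ℤ) ^ 3 : ℤ) : ℚ)}.Finite := by
  obtain ⟨hPp, h4, h1, hsq, h42⟩ := pr_facts hP hne
  have H := hyk_of hP hne hY
  refine ⟨?_, finite_of_sel (by omega) (fun z h1 h2 h3 => hA P H z h1 h2 (fun l _ => h3 l))
    (fun z h1 h2 => hB P H z h1 (fun l _ => h2 l))⟩
  obtain ⟨s, Op, hOp, hsym, hs⟩ := Pool.Agent.Y687.exists_symb2
  obtain ⟨o, ho, e⟩ := SS_val hS hD hI hP hne (by rw [Yd_eq hS hD hI hR hP]; exact hY) hsym ap5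
  have ho0 : o ≠ 0 := by rintro rfl; simp at ho
  exact Pool.Agent.Y687.exists_f_ne (pr P) (Nat.odd_iff.2 (by omega)) hsq h1 h4 h42 hOp hs
    (by rw [e]; exact mul_ne_zero (by positivity) ho0)

/-- the rank form -/
theorem rank_form (hS : S_SYM) (hD : S_DIAG) (hI : S_IND) (hR : S_RTE) (hA : S_SELA)
    (hB : S_SELB) {P : Finset ℕ} (hP : ∀ p ∈ P, Fam p) (hne : P.Nonempty)
    (hY : Odd (Yd lres xrt P)) :
    Pool.Agent.Y687.RankBSD (5805 * (pr P : ℤ) ^ 2) (-285714 * (pr P : ℤ) ^ 3) := by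
  obtain ⟨⟨f, hf, hfp, hf1⟩, hfin⟩ := weak hS hD hI hR hA hB hP hne hY
  exact Pool.Agent.Y687.rankBSD hf hfp hf1 hfin

/-- the `2`-part of the formula -/
theorem two_part (tE : S_E0) (tIN : S_TIN) (tSP : S_TSP) (t2 : S_T2) (t7 : S_T7) (tO : S_OMEGA)
    (tM : S_MIN) (hS : S_SYM) (hD : S_DIAG) (hI : S_IND) (hR : S_RTE) (hA : S_SELA)
    (hB : S_SELB) {P : Finset ℕ} (hP : ∀ p ∈ P, Fam p) (hne : P.Nonempty)
    (hY : Odd (Yd lres xrt P)) (W : WeierstrassCurve ℤ) (hW : W = WM (pr P : ℤ)) :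
    IsGloballyMinimal W ∧ Finite (EQ W).toAffine.Point ∧
    (∀ (n : ℕ) (x : Pool.Agent.TH841.SH.D.Sha (EQ W)), 2 ^ n • x = 0 → x = 0) ∧
    (∃ f, IsL W f) ∧ ∀ f, IsL W f → f 1 ≠ 0 ∧ ∃ u : ℚ, padicValRat 2 u = 0 ∧
      f 1 = (((u : ℝ) * (Omega W * tamProd W / (Nat.card (EQ W).toAffine.Point : ℝ) ^ 2) : ℝ) : ℂ) := by
  classical
  obtain ⟨hPp, h4, h1, hsq, h42⟩ := pr_facts hP hne
  have H := hyk_of hP hne hY
  obtain ⟨s, L, Op, Om, hOp, hOm, g2, g3, hL, hsym, hs⟩ := Pool.Agent.Y700.exists_symb2'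
  obtain ⟨o1, ho1, e1⟩ := SS_val hS hD hI hP hne (by rw [Yd_eq hS hD hI hR hP]; exact hY) hsym ap5
  have hsqZ : Squarefree ((pr P : ℕ) : ℤ) := Int.squarefree_natCast.2 hsq
  obtain ⟨o3, ho3, e3⟩ := Pool.Agent.Y700.tam_gen tE tIN tSP t2 t7 (P := P) (S := ∅)
    (M := pr P) (by
      intro q hq
      have h7 := (hP q hq).2.2
      have h24 := (hP q hq).2.1
      haveI : Fact q.Prime := ⟨hPp q hq⟩
      exact ⟨hPp q hq, by omega, by omega,
        (Pool.Agent.Y687.sq_seven q (by omega) (by omega)).2 h7⟩) (by simp) (by simp [pr]) h4 hsqZ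
  rw [Finset.card_empty, zero_add] at e3
  obtain ⟨a1, a2, k, hk, a3⟩ := Pool.Agent.Y700.alg_M (M := ((pr P : ℕ) : ℤ)) (by omega)
    (fun z h1 h2 h3 => hA P H z h1 h2 (fun l _ => h3 l))
    (fun z h1 h2 => hB P H z h1 (fun l _ => h2 l))
  have h14 : Nat.Coprime (pr P) 14 := Nat.Coprime.coprime_dvd_right (by norm_num) h42
  obtain ⟨c1, c2, c3⟩ := Pool.Agent.Y700.concl tO tM h4 h1 hsqZ h14 hOp hOm g2 g3 hL hs ho1 e1 ho3 e3
    hk a3
  subst hW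
  exact ⟨c1, a2, a1, c2, c3⟩

/-- existence of the sets -/
theorem infinite_P (hR193 : S_EX) (hE : S_EXI) (k : ℕ) (hk : 2 ≤ k) :
    {P : Finset ℕ | P.card = k ∧ (∀ p ∈ P, Fam p) ∧ Odd (Yd lres xrt P)}.Infinite := by
  classical
  refine hE xrt (fun p => ?_) ⟨193, hR193.1, ?_⟩ k hk
  · unfold xrt
    split_ifs
    · exact Or.inr rfl
    · exact Or.inl rfl
  · unfold xrt
    rw [if_pos hR193.2]

end Pool.Agent.Z700
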