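import Pool.Agent.Z700.Defs2
import Pool.Agent.Y687.K2.Main2

/-!
# Many split primes: the value of the character sum of the symbol
-/

set_option autoImplicit false
set_option linter.style.haveILetI false

open Finset

namespace Pool.Agent.Z700

open Pool.Agent.W97.MT (ap E14)
open Pool.Agent.Y687 (SS Symb2 Symb rr mem_rr chi)

/-- SYM: the explicit formula for the symbol -/
def S_SYM : Prop := ∀ (s : ℚ → ℤ) (a : ℕ → ℤ), Symb2 s a → a 5 = 0 → ∀ x M : ℤ, 0 < M →
  IsCoprime (14 * x) M → s ((x : ℚ) / M) = s 0 * (1 - 3 * Fp x M)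

theorem pr_pos {P : Finset ℕ} (hP : ∀ p ∈ P, p.Prime) : 0 < pr P :=
  Finset.prod_pos fun p hp => (hP p hp).pos

theorem dvd_pr {P : Finset ℕ} {p : ℕ} (hp : p ∈ P) : p ∣ pr P := Finset.dvd_prod_of_mem _ hp

theorem mem_of_dvd_pr {P : Finset ℕ} (hP : ∀ p ∈ P, p.Prime) {q : ℕ} (hq : q.Prime)
    (h : q ∣ pr P) : q ∈ P := Pool.Agent.Y687.dvd_prod_primes hP hq h

theorem pr_mod {P : Finset ℕ} {n : ℕ} (h : ∀ p ∈ P, p % n = 1 % n) : pr P % n = 1 % n := by
  classical
  induction P using Finset.induction_on with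
  | empty => rfl
  | insert p S hp ih =>
    unfold pr at ih ⊢
    rw [Finset.prod_insert hp, Nat.mul_mod, ih fun q hq => h q (Finset.mem_insert_of_mem hq),
      h p (Finset.mem_insert_self _ _), ← Nat.mul_mod, one_mul]

theorem pr_sqf {P : Finset ℕ} (hP : ∀ p ∈ P, p.Prime) : Squarefree (pr P) :=
  Pool.Agent.Y687.squarefree_prod hP

theorem one_lt_pr {P : Finset ℕ} (hP : ∀ p ∈ P, p.Prime) (hne : P.Nonempty) : 1 < pr P := by
  obtain ⟨p, hp⟩ := hne
  exact lt_of_lt_of_le (hP p hp).one_lt (Nat.le_of_dvd (pr_pos hP) (dvd_pr hp))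

/-- the quadratic character of `pr P` is not trivial -/
theorem sum_jac {P : Finset ℕ} (hP : ∀ p ∈ P, p.Prime) (hne : P.Nonempty)
    (h2 : ∀ p ∈ P, p ≠ 2) : ∑ u ∈ rr (pr P), jacobiSym (u : ℤ) (pr P) = 0 := by
  classical
  have hM := pr_pos hP
  haveI : NeZero (pr P) := ⟨hM.ne'⟩
  obtain ⟨p, hp⟩ := hne
  have hpp := hP p hp
  haveI : Fact p.Prime := ⟨hpp⟩
  obtain ⟨Q, hQ⟩ := dvd_pr hp
  have hsq := pr_sqf hP
  have hcop : Nat.Coprime p Q := by
    rw [hQ] at hsq
    exact Nat.coprime_of_squarefree_mul hsq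
  have hchar : ringChar (ZMod p) ≠ 2 := by
    rw [ZMod.ringChar_zmod_n]; exact h2 p hp
  obtain ⟨t, ht⟩ := quadraticChar_exists_neg_one hchar
  obtain ⟨n, hn1, hn2⟩ := Nat.chineseRemainder hcop t.val 1
  have hjp : jacobiSym (n : ℤ) p = -1 := by
    have h3 : jacobiSym (t.val : ℤ) p = -1 := by
      rw [← jacobiSym.legendreSym.to_jacobiSym, legendreSym]
      simpa using ht
    rw [← h3]
    refine jacobiSym.mod_left' ?_
    exact_mod_cast hn1
  have hjQ : jacobiSym (n : ℤ) Q = 1 := by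
    have h3 : jacobiSym ((1 : ℕ) : ℤ) Q = 1 := by simp
    rw [← h3]
    refine jacobiSym.mod_left' ?_
    exact_mod_cast hn2
  have hQ0 : Q ≠ 0 := by
    rintro rfl
    rw [mul_zero] at hQ
    omega
  have hj : jacobiSym (n : ℤ) (pr P) = -1 := by
    rw [hQ, jacobiSym.mul_right' _ hpp.ne_zero hQ0, hjp, hjQ, mul_one]
  have hcn : Nat.Coprime n (pr P) := by
    by_contra h
    have h0 : jacobiSym (n : ℤ) (pr P) = 0 := by
      rw [jacobiSym.eq_zero_iff_not_coprime]
      intro hg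
      rw [Int.gcd_natCast_natCast] at hg
      exact h hg
    rw [hj] at h0
    norm_num at h0
  let c : (ZMod (pr P))ˣ := ZMod.unitOfCoprime n hcn
  have hc : chi (M := pr P) (pr P) c = -1 := by
    rw [Pool.Agent.Y687.chi_val (dvd_refl _) c (n : ℤ) (by simp [c]), hj]
  have e := Pool.Agent.Y687.sum_rr (M := pr P) (fun a => jacobiSym (a : ℤ) (pr P))
  rw [e]
  have h5 : ∑ u : (ZMod (pr P))ˣ, chi (M := pr P) (pr P) (c * u) =
      ∑ u : (ZMod (pr P))ˣ, chi (M := pr P) (pr P) u :=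
    Fintype.sum_equiv (Equiv.mulLeft c) _ _ fun u => rfl
  have h6 : ∑ u : (ZMod (pr P))ˣ, chi (M := pr P) (pr P) (c * u) =
      -∑ u : (ZMod (pr P))ˣ, chi (M := pr P) (pr P) u := by
    rw [← Finset.sum_neg_distrib]
    refine Finset.sum_congr rfl fun u _ => ?_
    rw [Pool.Agent.Y687.chi_mul (dvd_refl _), hc, neg_one_mul]
  show ∑ u : (ZMod (pr P))ˣ, chi (M := pr P) (pr P) u = 0
  linarith

/-- the character sum of the symbol is a square, up to the value at zero -/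
theorem SS_eq (hS : S_SYM) (hD : S_DIAG) {s : ℚ → ℤ} {a : ℕ → ℤ} (h : Symb2 s a) (h5 : a 5 = 0)
    {P : Finset ℕ} (hP : ∀ p ∈ P, Fam p) (hne : P.Nonempty) :
    SS s (pr P) (pr P) = s 0 * pii P ^ 2 := by
  have hPp : ∀ p ∈ P, p.Prime := fun p hp => (hP p hp).1
  have hM := pr_pos hPp
  have h14 : Nat.Coprime 14 (pr P) := by
    rw [show (14 : ℕ) = 2 * 7 by norm_num]
    refine Nat.Coprime.mul_left ?_ ?_
    · rw [Nat.Prime.coprime_iff_not_dvd Nat.prime_two]
      intro hd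
      have := (hP 2 (mem_of_dvd_pr hPp Nat.prime_two hd)).2.1
      omega
    · rw [Nat.Prime.coprime_iff_not_dvd (by norm_num)]
      intro hd
      have := (hP 7 (mem_of_dvd_pr hPp (by norm_num) hd)).2.2
      omega
  have e1 : SS s (pr P) (pr P) = ∑ u ∈ rr (pr P), (s 0 * jacobiSym (u : ℤ) (pr P) -
      3 * s 0 * (jacobiSym (u : ℤ) (pr P) * Fp u (pr P))) := by
    unfold SS
    refine Finset.sum_congr rfl fun u hu => ?_
    have hu2 := (mem_rr.1 hu).2
    have hc : IsCoprime (14 * (u : ℤ)) ((pr P : ℕ) : ℤ) := by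
      refine IsCoprime.mul_left ?_ ?_
      · exact_mod_cast (Nat.isCoprime_iff_coprime.2 h14)
      · exact Nat.isCoprime_iff_coprime.2 hu2
    have h1 := hS s a h h5 u (pr P) (by exact_mod_cast hM) hc
    have h2 : s (((u : ℕ) : ℚ) / ((pr P : ℕ) : ℚ)) = s 0 * (1 - 3 * Fp u (pr P)) := by
      rw [← h1]
      push_cast
      rfl
    rw [h2]
    ring
  rw [e1, Finset.sum_sub_distrib, ← Finset.mul_sum, ← Finset.mul_sum,
    sum_jac hPp hne (fun p hp h2 => by have := (hP p hp).2.1; omega)]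
  have h3 := hD P hP hne
  have e2 : (range (pr P)).filter (fun u => Nat.Coprime u (pr P)) = rr (pr P) := rfl
  rw [e2] at h3
  linear_combination s 0 * h3

end Pool.Agent.Z700
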